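import Pool.Agent.R485.Mult.Moment

/-!
# Joint distribution of digits at several places over the multiples of an algebraic number, part 1
-/

set_option autoImplicit false

namespace Run7.h518.CLT

open Finset Filter Topology
open Pool.Agent.H469R2.NK (e norm_e e_add e_zero conj_e)
open Pool.Agent.W565.MOFS (P2 cos_sum re_e)
open Pool.Agent.R485.Mult (dioph geom e_sum saw_bound indicator_eq e_intCast)

/-- the sawtooth function -/
noncomputable def B1 (t : ℝ) : ℝ := Int.fract t - 1 / 2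

/-- its trigonometric approximation -/
noncomputable def G (δ : ℝ) (H : ℕ) (t : ℝ) : ℝ :=
  ∑ h ∈ Icc 1 H, 1 / (4 * δ * Real.pi ^ 2) * (1 / (h : ℝ) ^ 2 *
    (Real.cos (2 * Real.pi * h * (t + δ)) - Real.cos (2 * Real.pi * h * (t - δ))))

lemma tail_bound (t δ : ℝ) (H : ℕ) (hH : 1 ≤ H) :
    |Real.pi ^ 2 * P2 (Int.fract (t + δ)) - Real.pi ^ 2 * P2 (Int.fract (t - δ)) -
      ∑ h ∈ Icc 1 H, 1 / (h : ℝ) ^ 2 * (Real.cos (2 * Real.pi * h * (t + δ)) -
        Real.cos (2 * Real.pi * h * (t - δ)))| ≤ (2 : ℝ) / H := by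
  set f : ℕ → ℝ := fun h => 1 / (h : ℝ) ^ 2 * (Real.cos (2 * Real.pi * h * (t + δ)) -
        Real.cos (2 * Real.pi * h * (t - δ))) with hf
  have h1 : HasSum f (Real.pi ^ 2 * P2 (Int.fract (t + δ)) -
      Real.pi ^ 2 * P2 (Int.fract (t - δ))) := by
    have h9 := (cos_sum (t + δ)).sub (cos_sum (t - δ))
    have e9 : (fun h : ℕ => 1 / (h : ℝ) ^ 2 * Real.cos (2 * Real.pi * h * (t + δ)) -
        1 / (h : ℝ) ^ 2 * Real.cos (2 * Real.pi * h * (t - δ))) = f := by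
      funext h
      exact (mul_sub _ _ _).symm
    rw [e9] at h9
    exact h9
  have hf0 : f 0 = 0 := by simp [hf]
  have h2 : ∀ M : ℕ, H ≤ M → |∑ h ∈ range (M + 1), f h - ∑ h ∈ Icc 1 H, f h| ≤ (2 : ℝ) / H := by
    intro M hM
    have e1 : ∑ h ∈ range (M + 1), f h = ∑ h ∈ Icc 1 H, f h + ∑ h ∈ Ioc H M, f h := by
      have e2 : range (M + 1) = insert 0 (Icc 1 H ∪ Ioc H M) := by
        ext a
        rw [mem_range, mem_insert, mem_union, mem_Icc, mem_Ioc]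
        omega
      have h0 : 0 ∉ Icc 1 H ∪ Ioc H M := by
        rw [mem_union, mem_Icc, mem_Ioc]; omega
      have hdisj : Disjoint (Icc 1 H) (Ioc H M) := by
        rw [disjoint_left]
        intro a ha ha'
        rw [mem_Icc] at ha
        rw [mem_Ioc] at ha'
        omega
      rw [e2, sum_insert h0, hf0, zero_add, sum_union hdisj]
    rw [e1, add_sub_cancel_left]
    refine (abs_sum_le_sum_abs _ _).trans ?_
    have h3 : ∀ h ∈ Ioc H M, |f h| ≤ ((h : ℝ) ^ 2)⁻¹ * 2 := by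
      intro h _
      simp only [hf]
      rw [abs_mul, abs_of_nonneg (by positivity : (0 : ℝ) ≤ 1 / (h : ℝ) ^ 2), one_div]
      refine mul_le_mul_of_nonneg_left ?_ (by positivity)
      have h3 := Real.abs_cos_le_one (2 * Real.pi * h * (t + δ))
      have h4 := Real.abs_cos_le_one (2 * Real.pi * h * (t - δ))
      have := abs_sub (Real.cos (2 * Real.pi * h * (t + δ))) (Real.cos (2 * Real.pi * h * (t - δ)))
      linarith
    refine (sum_le_sum h3).trans ?_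
    rw [← sum_mul]
    have h5 := sum_Ioc_inv_sq_le_sub (α := ℝ) (k := H) (n := M) (by omega) hM
    have h6 : (0 : ℝ) ≤ ((M : ℕ) : ℝ)⁻¹ := by positivity
    calc (∑ h ∈ Ioc H M, ((h : ℝ) ^ 2)⁻¹) * 2 ≤ (H : ℝ)⁻¹ * 2 := by
          refine mul_le_mul_of_nonneg_right ?_ (by norm_num)
          linarith
      _ = (2 : ℝ) / H := by rw [div_eq_mul_inv]; ring
  have h3 : Tendsto (fun M : ℕ => |∑ h ∈ range (M + 1), f h - ∑ h ∈ Icc 1 H, f h|) atTop
      (𝓝 |Real.pi ^ 2 * P2 (Int.fract (t + δ)) -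
      Real.pi ^ 2 * P2 (Int.fract (t - δ)) - ∑ h ∈ Icc 1 H, f h|) :=
    (((h1.tendsto_sum_nat.comp (tendsto_add_atTop_nat 1)).sub_const _).abs)
  exact le_of_tendsto h3 (eventually_atTop.2 ⟨H, h2⟩)

lemma smooth_err (t δ : ℝ) (h0 : 0 < δ) (h1 : δ < 1 / 2) :
    |B1 t - (P2 (Int.fract (t + δ)) - P2 (Int.fract (t - δ))) / (4 * δ)| ≤
      (if δ ≤ Int.fract t ∧ Int.fract t < 1 - δ then 0 else 1) := by
  unfold B1
  set u := Int.fract t with hu
  have hu0 : 0 ≤ u := Int.fract_nonneg t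
  have hu1 : u < 1 := Int.fract_lt_one t
  have ht : t = u + (⌊t⌋ : ℤ) := (Int.fract_add_floor t).symm
  have e1 : Int.fract (t + δ) = if u < 1 - δ then u + δ else u + δ - 1 := by
    split_ifs with h
    · have : t + δ = (u + δ) + (⌊t⌋ : ℤ) := by linarith
      rw [this, Int.fract_add_intCast, Int.fract_eq_self.2 ⟨by linarith, by linarith⟩]
    · have : t + δ = (u + δ - 1) + ((⌊t⌋ + 1 : ℤ) : ℝ) := by push_cast; linarith
      rw [this, Int.fract_add_intCast, Int.fract_eq_self.2 ⟨by linarith, by linarith⟩]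
  have e2 : Int.fract (t - δ) = if δ ≤ u then u - δ else u - δ + 1 := by
    split_ifs with h
    · have : t - δ = (u - δ) + (⌊t⌋ : ℤ) := by linarith
      rw [this, Int.fract_add_intCast, Int.fract_eq_self.2 ⟨by linarith, by linarith⟩]
    · have : t - δ = (u - δ + 1) + ((⌊t⌋ - 1 : ℤ) : ℝ) := by push_cast; linarith
      rw [this, Int.fract_add_intCast, Int.fract_eq_self.2 ⟨by linarith, by linarith⟩]
  rw [e1, e2]
  have h4 : (0 : ℝ) < 4 * δ := by linarith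
  by_cases ha : δ ≤ u
  · by_cases hb : u < 1 - δ
    · rw [if_pos hb, if_pos ha, if_pos ⟨ha, hb⟩]
      unfold P2
      have : u - 1 / 2 - (((u + δ) ^ 2 - (u + δ) + 1 / 6) - ((u - δ) ^ 2 - (u - δ) + 1 / 6)) /
          (4 * δ) = 0 := by
        field_simp
        ring
      rw [this, abs_zero]
    · rw [if_neg hb, if_pos ha, if_neg (fun h => hb h.2)]
      unfold P2
      have : u - 1 / 2 - (((u + δ - 1) ^ 2 - (u + δ - 1) + 1 / 6) - ((u - δ) ^ 2 - (u - δ) + 1 / 6))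
          / (4 * δ) = 1 / 2 - (1 - u) / (2 * δ) := by
        field_simp
        ring
      rw [this]
      have h5 : 0 ≤ (1 - u) / (2 * δ) := div_nonneg (by linarith) (by linarith)
      have h6 : (1 - u) / (2 * δ) ≤ 1 / 2 := by
        rw [div_le_iff₀ (by linarith)]; linarith
      rw [abs_le]; constructor <;> linarith
  · rw [if_pos (by linarith), if_neg ha, if_neg (fun h => ha h.1)]
    unfold P2
    have : u - 1 / 2 - (((u + δ) ^ 2 - (u + δ) + 1 / 6) - ((u - δ + 1) ^ 2 - (u - δ + 1) + 1 / 6))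
        / (4 * δ) = u / (2 * δ) - 1 / 2 := by
      field_simp
      ring
    rw [this]
    have h5 : 0 ≤ u / (2 * δ) := div_nonneg (by linarith) (by linarith)
    have h6 : u / (2 * δ) ≤ 1 / 2 := by
      rw [div_le_iff₀ (by linarith)]; linarith
    rw [abs_le]; constructor <;> linarith

lemma G_err (t δ : ℝ) (h0 : 0 < δ) (h1 : δ < 1 / 2) (H : ℕ) (hH : 1 ≤ H) :
    |B1 t - G δ H t| ≤ (if δ ≤ Int.fract t ∧ Int.fract t < 1 - δ then 0 else 1) + 1 / (δ * H) := by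
  have hH0 : (0 : ℝ) < H := by exact_mod_cast hH
  have hpi : 0 < Real.pi := Real.pi_pos
  have hpi3 := Real.pi_gt_three
  have e1 := smooth_err t δ h0 h1
  have e2 := tail_bound t δ H hH
  have e3 : (P2 (Int.fract (t + δ)) - P2 (Int.fract (t - δ))) / (4 * δ) - G δ H t =
      1 / (4 * δ * Real.pi ^ 2) * (Real.pi ^ 2 * P2 (Int.fract (t + δ)) -
        Real.pi ^ 2 * P2 (Int.fract (t - δ)) -
      ∑ h ∈ Icc 1 H, 1 / (h : ℝ) ^ 2 * (Real.cos (2 * Real.pi * h * (t + δ)) -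
        Real.cos (2 * Real.pi * h * (t - δ)))) := by
    unfold G
    rw [← mul_sum]
    generalize ∑ h ∈ Icc 1 H, 1 / (h : ℝ) ^ 2 * (Real.cos (2 * Real.pi * h * (t + δ)) -
        Real.cos (2 * Real.pi * h * (t - δ))) = S
    field_simp
  have e4 : |(P2 (Int.fract (t + δ)) - P2 (Int.fract (t - δ))) / (4 * δ) - G δ H t| ≤
      1 / (δ * H) := by
    rw [e3, abs_mul, abs_of_pos (by positivity)]
    calc 1 / (4 * δ * Real.pi ^ 2) * _ ≤ 1 / (4 * δ * Real.pi ^ 2) * ((2 : ℝ) / H) := by gcongr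
      _ = (1 / (δ * H)) * (1 / (2 * Real.pi ^ 2)) := by field_simp; norm_num
      _ ≤ (1 / (δ * H)) * 1 := by
        apply mul_le_mul_of_nonneg_left _ (by positivity)
        rw [div_le_one (by positivity)]
        nlinarith
      _ = _ := mul_one _
  have e5 : B1 t - G δ H t = (B1 t - (P2 (Int.fract (t + δ)) - P2 (Int.fract (t - δ))) / (4 * δ)) +
    ((P2 (Int.fract (t + δ)) - P2 (Int.fract (t - δ))) / (4 * δ) - G δ H t) := by ring
  rw [e5]
  exact (abs_add_le _ _).trans (add_le_add e1 e4)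

lemma abs_B1 (t : ℝ) : |B1 t| ≤ 1 / 2 := by
  unfold B1
  have h1 := Int.fract_nonneg t
  have h2 := Int.fract_lt_one t
  rw [abs_le]; constructor <;> linarith

lemma abs_G (t δ : ℝ) (h0 : 0 < δ) (h1 : δ < 1 / 2) (H : ℕ) (hH : 1 ≤ H) (hδH : 1 ≤ δ * H) :
    |G δ H t| ≤ 3 := by
  have e1 := G_err t δ h0 h1 H hH
  have e2 := abs_B1 t
  have e3 : 1 / (δ * H) ≤ 1 := by
    rw [div_le_one (by linarith)]; exact hδH
  have e4 : (if δ ≤ Int.fract t ∧ Int.fract t < 1 - δ then (0 : ℝ) else 1) ≤ 1 := by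
    split_ifs <;> norm_num
  have e5 : |G δ H t| ≤ |B1 t| + |B1 t - G δ H t| := by
    have := abs_sub_abs_le_abs_sub (G δ H t) (B1 t)
    rw [abs_sub_comm] at this
    linarith
  linarith

/-- Fourier coefficients of the approximation to a combination of digit indicators -/
noncomputable def cf (b : ℕ) (δ : ℝ) (ψ : ℕ → ℝ) (l : ℤ) : ℂ :=
  ((1 / (8 * δ * Real.pi ^ 2 * (l : ℝ) ^ 2) : ℝ) : ℂ) * (e (l * δ) - e (-(l * δ))) *
    ∑ d ∈ range b, (ψ d : ℂ) * (e (-(l * ((d + 1 : ℕ) : ℝ) / b)) - e (-(l * (d : ℝ) / b)))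

/-- the centred digit function -/
noncomputable def ps (b : ℕ) (ψ : ℕ → ℝ) (t : ℝ) : ℝ :=
  ∑ d ∈ range b, ψ d * (B1 (t - ((d + 1 : ℕ) : ℝ) / b) - B1 (t - (d : ℝ) / b))

/-- its approximation -/
noncomputable def ap (b : ℕ) (δ : ℝ) (H : ℕ) (ψ : ℕ → ℝ) (t : ℝ) : ℝ :=
  ∑ d ∈ range b, ψ d * (G δ H (t - ((d + 1 : ℕ) : ℝ) / b) - G δ H (t - (d : ℝ) / b))

lemma cos_e (x : ℝ) : ((Real.cos (2 * Real.pi * x) : ℝ) : ℂ) = (e x + e (-x)) / 2 := by
  have h1 : (e x + e (-x)) = e x + (starRingEnd ℂ) (e x) := by rw [conj_e]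
  rw [h1, Complex.add_conj, re_e]
  push_cast
  ring

/-- the nonzero frequencies -/
noncomputable def fr (H : ℕ) : Finset ℤ := (Icc (-(H : ℤ)) H).erase 0

lemma sum_fr (H : ℕ) (f : ℤ → ℂ) :
    ∑ l ∈ fr H, f l = ∑ h ∈ Icc 1 H, (f (h : ℤ) + f (-(h : ℤ))) := by
  induction H with
  | zero => simp [fr]
  | succ n ih =>
    have h1 : fr (n + 1) = insert ((n + 1 : ℕ) : ℤ) (insert (-((n + 1 : ℕ) : ℤ)) (fr n)) := by
      ext a
      simp only [fr, mem_erase, mem_Icc, mem_insert]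
      push_cast
      omega
    rw [h1, sum_insert, sum_insert, ih, ← insert_Icc_right_eq_Icc_add_one (by omega : 1 ≤ n + 1),
      sum_insert]
    · ring
    · rw [mem_Icc]; omega
    · simp only [fr, mem_erase, mem_Icc]
      push_cast
      omega
    · simp only [fr, mem_erase, mem_Icc, mem_insert]
      push_cast
      omega

lemma G_fourier (δ : ℝ) (hδ : δ ≠ 0) (H : ℕ) (t : ℝ) :
    ((G δ H t : ℝ) : ℂ) = ∑ l ∈ fr H, ((1 / (8 * δ * Real.pi ^ 2 * (l : ℝ) ^ 2) : ℝ) : ℂ) *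
      (e (l * δ) - e (-(l * δ))) * e (l * t) := by
  rw [sum_fr]
  unfold G
  push_cast
  refine sum_congr rfl fun h hh => ?_
  have hh1 : (1 : ℝ) ≤ h := by
    have := (mem_Icc.1 hh).1
    exact_mod_cast this
  have c1 : (Complex.cos (2 * (Real.pi : ℂ) * (h : ℂ) * ((t : ℂ) + (δ : ℂ)))) =
      (e (h * t) * e (h * δ) + e (-(h * t)) * e (-(h * δ))) / 2 := by
    have := cos_e (h * (t + δ))
    push_cast at this
    rw [← e_add, ← e_add]
    rw [show (h : ℝ) * t + h * δ = h * (t + δ) by ring,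
      show -((h : ℝ) * t) + -(h * δ) = -(h * (t + δ)) by ring, ← this]
    congr 1
    ring
  have c2 : (Complex.cos (2 * (Real.pi : ℂ) * (h : ℂ) * ((t : ℂ) - (δ : ℂ)))) =
      (e (h * t) * e (-(h * δ)) + e (-(h * t)) * e (h * δ)) / 2 := by
    have := cos_e (h * (t - δ))
    push_cast at this
    rw [← e_add, ← e_add]
    rw [show (h : ℝ) * t + -(h * δ) = h * (t - δ) by ring,
      show -((h : ℝ) * t) + h * δ = -(h * (t - δ)) by ring, ← this]
    congr 1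
    ring
  rw [c1, c2]
  have n1 : ((δ : ℝ) : ℂ) ≠ 0 := by exact_mod_cast hδ
  have n2 : ((Real.pi : ℝ) : ℂ) ≠ 0 := by exact_mod_cast Real.pi_ne_zero
  have n3 : (h : ℂ) ≠ 0 := by
    have : (h : ℝ) ≠ 0 := by linarith
    exact_mod_cast this
  rw [show -(h : ℝ) * δ = -((h : ℝ) * δ) by ring, show -(h : ℝ) * t = -((h : ℝ) * t) by ring,
    neg_neg]
  field_simp
  ring

lemma ap_fourier (b : ℕ) (δ : ℝ) (hδ : δ ≠ 0) (H : ℕ) (ψ : ℕ → ℝ) (t : ℝ) :
    ((ap b δ H ψ t : ℝ) : ℂ) = ∑ l ∈ fr H, cf b δ ψ l * e (l * t) := by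
  unfold ap cf
  have h0 : ∀ d ∈ range b, ((ψ d * (G δ H (t - ((d + 1 : ℕ) : ℝ) / b) - G δ H (t - (d : ℝ) / b)) :
      ℝ) : ℂ) = ∑ l ∈ fr H, (ψ d : ℂ) * (((1 / (8 * δ * Real.pi ^ 2 * (l : ℝ) ^ 2) : ℝ) : ℂ) *
      (e (l * δ) - e (-(l * δ))) * e (l * (t - ((d + 1 : ℕ) : ℝ) / b)) -
      ((1 / (8 * δ * Real.pi ^ 2 * (l : ℝ) ^ 2) : ℝ) : ℂ) *
      (e (l * δ) - e (-(l * δ))) * e (l * (t - (d : ℝ) / b))) := by
    intro d _
    rw [Complex.ofReal_mul, Complex.ofReal_sub, G_fourier δ hδ H, G_fourier δ hδ H,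
      ← sum_sub_distrib, mul_sum]
  rw [Complex.ofReal_sum, sum_congr rfl h0, sum_comm]
  refine sum_congr rfl fun l _ => ?_
  rw [mul_sum, sum_mul]
  refine sum_congr rfl fun d _ => ?_
  have h1 : e (l * (t - ((d + 1 : ℕ) : ℝ) / b)) = e (-(l * ((d + 1 : ℕ) : ℝ) / b)) * e (l * t) := by
    rw [← e_add]; congr 1; ring
  have h2 : e (l * (t - (d : ℝ) / b)) = e (-(l * (d : ℝ) / b)) * e (l * t) := by
    rw [← e_add]; congr 1; ring
  push_cast at h1
  push_cast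
  rw [h1, h2]
  ring

lemma cf_dvd (b : ℕ) (hb : 2 ≤ b) (δ : ℝ) (ψ : ℕ → ℝ) (l : ℤ) (hl : (b : ℤ) ∣ l) :
    cf b δ ψ l = 0 := by
  unfold cf
  have hb0 : (b : ℝ) ≠ 0 := by positivity
  obtain ⟨c, rfl⟩ := hl
  rw [sum_eq_zero, mul_zero]
  intro d _
  have h1 : -(((b : ℤ) * c : ℤ) * ((d + 1 : ℕ) : ℝ) / b) = ((-(c * (d + 1 : ℕ)) : ℤ) : ℝ) := by
    push_cast
    field_simp
  have h2 : -(((b : ℤ) * c : ℤ) * (d : ℝ) / b) = ((-(c * d) : ℤ) : ℝ) := by
    push_cast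
    field_simp
  rw [h1, h2, e_intCast, e_intCast, sub_self, mul_zero]

lemma norm_cf (b : ℕ) (δ : ℝ) (hδ : 0 < δ) (ψ : ℕ → ℝ) (B : ℝ) (hψ : ∀ d, |ψ d| ≤ B)
    (l : ℤ) (hl : l ≠ 0) : ‖cf b δ ψ l‖ ≤ b * B / δ := by
  have hB : 0 ≤ B := (abs_nonneg _).trans (hψ 0)
  have hpi3 := Real.pi_gt_three
  have hl1 : (1 : ℝ) ≤ (l : ℝ) ^ 2 := by
    have : 1 ≤ l ^ 2 := by
      have := sq_pos_of_ne_zero (a := l) hl
      omega
    exact_mod_cast this
  unfold cf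
  rw [norm_mul, norm_mul, Complex.norm_real, Real.norm_eq_abs, abs_of_pos (by positivity)]
  have h1 : ‖e (l * δ) - e (-(l * δ))‖ ≤ 2 := by
    refine (norm_sub_le _ _).trans ?_
    rw [norm_e, norm_e]; norm_num
  have h2 : ‖∑ d ∈ range b, (ψ d : ℂ) * (e (-(l * ((d + 1 : ℕ) : ℝ) / b)) -
      e (-(l * (d : ℝ) / b)))‖ ≤ b * (B * 2) := by
    refine (norm_sum_le _ _).trans ?_
    refine (sum_le_card_nsmul _ _ (B * 2) ?_).trans ?_
    · intro d _
      rw [norm_mul, Complex.norm_real, Real.norm_eq_abs]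
      refine mul_le_mul (hψ d) ?_ (norm_nonneg _) hB
      refine (norm_sub_le _ _).trans ?_
      rw [norm_e, norm_e]; norm_num
    · rw [card_range, nsmul_eq_mul]
  calc 1 / (8 * δ * Real.pi ^ 2 * (l : ℝ) ^ 2) * ‖e (l * δ) - e (-(l * δ))‖ * _
      ≤ 1 / (8 * δ * Real.pi ^ 2 * (l : ℝ) ^ 2) * 2 * (b * (B * 2)) := by gcongr
    _ = (b * B / δ) * (1 / (2 * (Real.pi ^ 2 * (l : ℝ) ^ 2))) := by field_simp; norm_num
    _ ≤ (b * B / δ) * 1 := by
      apply mul_le_mul_of_nonneg_left _ (by positivity)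
      rw [div_le_one (by positivity)]
      nlinarith
    _ = _ := mul_one _

end Run7.h518.CLT
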