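import Pool.Agent.Run7.h518.CLTA

/-!
# Joint distribution of digits at several places over the multiples of an algebraic number, part 2
-/

set_option autoImplicit false

namespace Run7.h518.CLT

open Finset Filter Topology
open Pool.Agent.H469R2.NK (e norm_e e_add e_zero conj_e)
open Pool.Agent.W565.MOFS (P2 cos_sum re_e)
open Pool.Agent.R485.Mult (dioph geom e_sum saw_bound indicator_eq e_intCast)

/-- the subspace theorem for sums over a finite set of exponents -/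
theorem dioph_set (b : ℕ) (hb : 2 ≤ b) (x : ℝ) (hx : IsAlgebraic ℚ x) (hirr : Irrational x)
    (ε : ℝ) (hε : 0 < ε) (D : ℕ) :
    ∃ κ : ℝ, 0 < κ ∧ ∃ N0 : ℕ, ∀ N : ℕ, N0 ≤ N → ∀ U : Finset ℕ, U.card ≤ D → (∀ k ∈ U, k ≤ N) →
      ∀ lam : ℕ → ℤ, (∀ k ∈ U, |(lam k : ℝ)| ≤ Real.exp (κ * N)) →
      ∑ k ∈ U, lam k * (b : ℤ) ^ k ≠ 0 →
      ∀ P : ℤ, Real.exp (-(ε * N)) < |x * ∑ k ∈ U, (lam k : ℝ) * (b : ℝ) ^ k - P| := by
  induction D with
  | zero =>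
    refine ⟨1, one_pos, 0, fun N _ U hU _ lam _ hne => ?_⟩
    rw [Nat.le_zero, card_eq_zero] at hU
    subst hU
    simp at hne
  | succ D ih =>
    obtain ⟨κ1, hκ1, N1, h1⟩ := ih
    obtain ⟨κ2, hκ2, N2, h2⟩ := dioph b hb x hx hirr (D + 1) ε hε
    refine ⟨min κ1 κ2, lt_min hκ1 hκ2, max N1 N2, fun N hN U hU hUN lam hlam hne P => ?_⟩
    have hNa : N1 ≤ N := (le_max_left _ _).trans hN
    have hNb : N2 ≤ N := (le_max_right _ _).trans hN
    by_cases hc : U.card ≤ D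
    · refine h1 N hNa U hc hUN lam (fun k hk => (hlam k hk).trans ?_) hne P
      exact Real.exp_le_exp.2 (mul_le_mul_of_nonneg_right (min_le_left _ _) (Nat.cast_nonneg _))
    · have hc' : U.card = D + 1 := by omega
      have hmap := Finset.map_orderEmbOfFin_univ U hc'
      have hs : ∀ {R : Type} [AddCommMonoid R] (f : ℕ → R),
          ∑ i : Fin (D + 1), f (U.orderEmbOfFin hc' i) = ∑ k ∈ U, f k := by
        intro R _ f
        conv_rhs => rw [← hmap, sum_map]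
        rfl
      have h3 := h2 N hNb (fun i => U.orderEmbOfFin hc' i)
        (fun i => hUN _ (Finset.orderEmbOfFin_mem _ _ _)) (fun i => lam (U.orderEmbOfFin hc' i))
        (fun i => (hlam _ (Finset.orderEmbOfFin_mem _ _ _)).trans
          (Real.exp_le_exp.2 (mul_le_mul_of_nonneg_right (min_le_right _ _) (Nat.cast_nonneg _))))
        (by rw [hs (fun k => lam k * (b : ℤ) ^ k)]; exact hne) P
      rw [hs (fun k => (lam k : ℝ) * (b : ℝ) ^ k)] at h3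
      exact h3

lemma nonvanish (b : ℕ) (hb : 2 ≤ b) (U : Finset ℕ) (hU : U.Nonempty) (lam : ℕ → ℤ)
    (h : ∀ k ∈ U, ¬ (b : ℤ) ∣ lam k) : ∑ k ∈ U, lam k * (b : ℤ) ^ k ≠ 0 := by
  intro h0
  set k0 := U.min' hU with hk0
  have hk0U : k0 ∈ U := U.min'_mem hU
  have hb0 : ((b : ℤ)) ≠ 0 := by positivity
  apply h k0 hk0U
  rw [← add_sum_erase U _ hk0U] at h0
  have h1 : (b : ℤ) ^ (k0 + 1) ∣ ∑ k ∈ U.erase k0, lam k * (b : ℤ) ^ k := by
    apply dvd_sum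
    intro k hk
    rw [mem_erase] at hk
    have h2 : k0 + 1 ≤ k := by
      have := U.min'_le k hk.2
      have h3 := hk.1
      omega
    exact Dvd.dvd.mul_left (pow_dvd_pow _ h2) _
  have h2 : (b : ℤ) ^ (k0 + 1) ∣ lam k0 * (b : ℤ) ^ k0 := by
    have := dvd_neg.2 h1
    have e1 : -∑ k ∈ U.erase k0, lam k * (b : ℤ) ^ k = lam k0 * (b : ℤ) ^ k0 := by linarith
    rwa [e1] at this
  rw [pow_succ, mul_comm (lam k0)] at h2
  exact (mul_dvd_mul_iff_left (pow_ne_zero _ hb0)).1 h2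

/-- exponential sums over the multiples -/
theorem exp_set (b : ℕ) (hb : 2 ≤ b) (x : ℝ) (hx : IsAlgebraic ℚ x) (hirr : Irrational x)
    (ε : ℝ) (hε : 0 < ε) (D : ℕ) :
    ∃ κ : ℝ, 0 < κ ∧ ∃ N0 : ℕ, ∀ N : ℕ, N0 ≤ N → ∀ U : Finset ℕ, U.Nonempty → U.card ≤ D →
      (∀ k ∈ U, k ≤ N) → ∀ lam : ℕ → ℤ, (∀ k ∈ U, |(lam k : ℝ)| ≤ Real.exp (κ * N)) →
      (∀ k ∈ U, ¬ (b : ℤ) ∣ lam k) → ∀ (y c : ℝ) (J : ℤ) (M : ℕ),
      ‖∑ m ∈ range M, e (∑ k ∈ U, lam k * ((b : ℝ) ^ k * (y + (J + m) * x)) + c)‖ ≤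
        2 * Real.exp (ε * N) := by
  obtain ⟨κ, hκ, N0, h⟩ := dioph_set b hb x hx hirr ε hε D
  refine ⟨κ, hκ, N0, fun N hN U hU hUD hUN lam hlam hdiv y c J M => ?_⟩
  have h1 := h N hN U hUD hUN lam hlam (nonvanish b hb U hU lam hdiv)
  have h2 := geom (x * ∑ k ∈ U, (lam k : ℝ) * (b : ℝ) ^ k) (Real.exp (-(ε * N))) (Real.exp_pos _) h1
    ((∑ k ∈ U, (lam k : ℝ) * (b : ℝ) ^ k) * y + c) J M
  rw [Real.exp_neg, div_inv_eq_mul] at h2
  refine le_trans (le_of_eq ?_) h2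
  congr 1
  refine sum_congr rfl fun m _ => ?_
  congr 1
  rw [show (∑ k ∈ U, (lam k : ℝ) * ((b : ℝ) ^ k * (y + (J + m) * x))) =
    (∑ k ∈ U, (lam k : ℝ) * (b : ℝ) ^ k) * (y + (J + m) * x) by
      rw [sum_mul]; exact sum_congr rfl fun k _ => by ring]
  ring

/-- exponential sums for one place -/
theorem exp_one (b : ℕ) (hb : 2 ≤ b) (x : ℝ) (hx : IsAlgebraic ℚ x) (hirr : Irrational x)
    (ε : ℝ) (hε : 0 < ε) :
    ∃ κ : ℝ, 0 < κ ∧ ∃ N0 : ℕ, ∀ N : ℕ, N0 ≤ N → ∀ k h : ℕ, k ≤ N → 1 ≤ h →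
      (h : ℝ) ≤ Real.exp (κ * N) → ∀ (y c : ℝ) (J : ℤ) (M : ℕ),
      ‖∑ m ∈ range M, e (h * ((b : ℝ) ^ k * (y + (J + m) * x) + c))‖ ≤
        2 * Real.exp (ε * N) := by
  obtain ⟨κ, hκ, N0, h⟩ := dioph_set b hb x hx hirr ε hε 1
  refine ⟨κ, hκ, N0, fun N hN k l hk hl hlam y c J M => ?_⟩
  have hb0 : ((b : ℤ)) ≠ 0 := by positivity
  have h1 := h N hN {k} (by simp) (fun j hj => by rw [mem_singleton] at hj; omega)
    (fun _ => (l : ℤ)) (fun j _ => by push_cast; rw [abs_of_nonneg (by positivity)]; exact hlam)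
    (by rw [sum_singleton]; exact mul_ne_zero (by omega) (pow_ne_zero _ hb0))
  simp only [sum_singleton] at h1
  have h2 := geom (x * (((l : ℤ) : ℝ) * (b : ℝ) ^ k)) (Real.exp (-(ε * N))) (Real.exp_pos _) h1
    (l * (b : ℝ) ^ k * y + l * c) J M
  rw [Real.exp_neg, div_inv_eq_mul] at h2
  refine le_trans (le_of_eq ?_) h2
  congr 1
  refine sum_congr rfl fun m _ => ?_
  congr 1
  push_cast
  ring

/-- points near to the integers -/
noncomputable def bad (δ t : ℝ) : ℝ := if δ ≤ Int.fract t ∧ Int.fract t < 1 - δ then 0 else 1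

lemma bad_nonneg (δ t : ℝ) : 0 ≤ bad δ t := by unfold bad; split_ifs <;> norm_num

lemma count_bad (M : ℕ) (τ : ℕ → ℝ) (δ : ℝ) (h0 : 0 < δ) (h1 : δ < 1 / 2) (K : ℕ) (hK : 1 ≤ K)
    (E : ℝ) (hE : ∀ h ∈ Icc 1 K, ∀ c : ℝ, ‖∑ m ∈ range M, e (h * (τ m + c))‖ ≤ E) :
    ∑ m ∈ range M, bad δ (τ m) ≤ 2 * δ * M + 2 * (K * E + M / (K * δ) + M * δ) := by
  have hE0 : 0 ≤ E := (norm_nonneg _).trans (hE 1 (mem_Icc.2 ⟨le_rfl, hK⟩) 0)
  have hsaw : ∀ β : ℝ, |∑ m ∈ range M, (Int.fract (τ m - β) - 1 / 2)| ≤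
      K * E + M / (K * δ) + M * δ := by
    intro β
    have h2 := saw_bound (range M) (fun m => τ m - β) K hK δ h0 (by linarith)
    rw [card_range] at h2
    refine h2.trans ?_
    have h3 : ∑ h ∈ Icc 1 K, ‖∑ m ∈ range M, e (h * (τ m - β))‖ / h ≤ K * E := by
      calc ∑ h ∈ Icc 1 K, ‖∑ m ∈ range M, e (h * (τ m - β))‖ / h ≤ ∑ h ∈ Icc 1 K, E := by
            refine sum_le_sum fun h hh => ?_
            have hh1 : (1 : ℝ) ≤ h := by exact_mod_cast (mem_Icc.1 hh).1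
            refine (div_le_self (norm_nonneg _) hh1).trans ?_
            have := hE h hh (-β)
            simpa [sub_eq_add_neg] using this
        _ = K * E := by rw [sum_const, Nat.card_Icc, nsmul_eq_mul, Nat.add_sub_cancel]
    linarith
  have h2 : ∀ m ∈ range M, bad δ (τ m) = 2 * δ - (Int.fract (τ m - (1 - δ)) - 1 / 2) +
      (Int.fract (τ m - δ) - 1 / 2) := by
    intro m _
    have := indicator_eq (τ m) δ (1 - δ) h0.le (by linarith) (by linarith)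
    unfold bad
    split_ifs at this ⊢ with h
    · linarith
    · linarith
  rw [sum_congr rfl h2, sum_add_distrib, sum_sub_distrib, sum_const, card_range, nsmul_eq_mul]
  have h3 := (abs_le.1 (hsaw (1 - δ))).1
  have h4 := (abs_le.1 (hsaw δ)).2
  linarith

lemma prod_diff {ι : Type} (s : Finset ι) (f g : ι → ℝ) (C : ℝ) (hC : 1 ≤ C)
    (hf : ∀ i ∈ s, |f i| ≤ C) (hg : ∀ i ∈ s, |g i| ≤ C) :
    |∏ i ∈ s, f i - ∏ i ∈ s, g i| ≤ C ^ s.card * ∑ i ∈ s, |f i - g i| := by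
  classical
  induction s using Finset.induction_on with
  | empty => simp
  | insert a s ha ih =>
    rw [prod_insert ha, prod_insert ha, sum_insert ha, card_insert_of_notMem ha]
    have h1 := ih (fun i hi => hf i (mem_insert_of_mem hi)) (fun i hi => hg i (mem_insert_of_mem hi))
    have h2 : f a * ∏ i ∈ s, f i - g a * ∏ i ∈ s, g i =
        (f a - g a) * ∏ i ∈ s, f i + g a * (∏ i ∈ s, f i - ∏ i ∈ s, g i) := by ring
    have h3 : |∏ i ∈ s, f i| ≤ C ^ s.card := by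
      rw [abs_prod]
      calc ∏ i ∈ s, |f i| ≤ ∏ i ∈ s, C :=
            prod_le_prod (fun i _ => abs_nonneg _) (fun i hi => hf i (mem_insert_of_mem hi))
        _ = C ^ s.card := by rw [prod_const]
    have h4 : C ^ s.card ≤ C ^ (s.card + 1) := pow_le_pow_right₀ hC (Nat.le_succ _)
    rw [h2]
    refine (abs_add_le _ _).trans ?_
    rw [abs_mul, abs_mul, mul_add]
    refine add_le_add ?_ ?_
    · rw [mul_comm]
      exact mul_le_mul_of_nonneg_right (h3.trans h4) (abs_nonneg _)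
    · calc |g a| * |∏ i ∈ s, f i - ∏ i ∈ s, g i| ≤ C * (C ^ s.card * ∑ i ∈ s, |f i - g i|) :=
            mul_le_mul (hg a (mem_insert_self _ _)) h1 (abs_nonneg _) (by linarith)
        _ = _ := by rw [pow_succ]; ring

lemma abs_ps (b : ℕ) (ψ : ℕ → ℝ) (B : ℝ) (hψ : ∀ d, |ψ d| ≤ B) (t : ℝ) :
    |ps b ψ t| ≤ 6 * b * B + 1 := by
  have hB : 0 ≤ B := (abs_nonneg _).trans (hψ 0)
  unfold ps
  refine (abs_sum_le_sum_abs _ _).trans ?_
  have h1 : ∀ d ∈ range b, |ψ d * (B1 (t - ((d + 1 : ℕ) : ℝ) / b) - B1 (t - (d : ℝ) / b))| ≤ B * 1 := by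
    intro d _
    rw [abs_mul]
    refine mul_le_mul (hψ d) ?_ (abs_nonneg _) hB
    have h2 := abs_B1 (t - ((d + 1 : ℕ) : ℝ) / b)
    have h3 := abs_B1 (t - (d : ℝ) / b)
    have := abs_sub (B1 (t - ((d + 1 : ℕ) : ℝ) / b)) (B1 (t - (d : ℝ) / b))
    linarith
  refine (sum_le_sum h1).trans ?_
  rw [sum_const, card_range, nsmul_eq_mul]
  have : 0 ≤ (b : ℝ) * B := by positivity
  nlinarith

lemma abs_ap (b : ℕ) (ψ : ℕ → ℝ) (B : ℝ) (hψ : ∀ d, |ψ d| ≤ B) (t δ : ℝ) (h0 : 0 < δ)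
    (h1 : δ < 1 / 2) (H : ℕ) (hH : 1 ≤ H) (hδH : 1 ≤ δ * H) :
    |ap b δ H ψ t| ≤ 6 * b * B + 1 := by
  have hB : 0 ≤ B := (abs_nonneg _).trans (hψ 0)
  unfold ap
  refine (abs_sum_le_sum_abs _ _).trans ?_
  have h1 : ∀ d ∈ range b, |ψ d * (G δ H (t - ((d + 1 : ℕ) : ℝ) / b) - G δ H (t - (d : ℝ) / b))| ≤
      B * 6 := by
    intro d _
    rw [abs_mul]
    refine mul_le_mul (hψ d) ?_ (abs_nonneg _) hB
    have h2 := abs_G (t - ((d + 1 : ℕ) : ℝ) / b) δ h0 h1 H hH hδH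
    have h3 := abs_G (t - (d : ℝ) / b) δ h0 h1 H hH hδH
    have := abs_sub (G δ H (t - ((d + 1 : ℕ) : ℝ) / b)) (G δ H (t - (d : ℝ) / b))
    linarith
  refine (sum_le_sum h1).trans ?_
  rw [sum_const, card_range, nsmul_eq_mul]
  linarith

lemma ps_ap (b : ℕ) (ψ : ℕ → ℝ) (B : ℝ) (hψ : ∀ d, |ψ d| ≤ B) (t δ : ℝ) (h0 : 0 < δ)
    (h1 : δ < 1 / 2) (H : ℕ) (hH : 1 ≤ H) :
    |ps b ψ t - ap b δ H ψ t| ≤ B * ∑ d ∈ range b, (bad δ (t - ((d + 1 : ℕ) : ℝ) / b) +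
      bad δ (t - (d : ℝ) / b) + 2 * (1 / (δ * H))) := by
  have hB : 0 ≤ B := (abs_nonneg _).trans (hψ 0)
  unfold ps ap
  rw [← sum_sub_distrib, mul_sum]
  refine (abs_sum_le_sum_abs _ _).trans (sum_le_sum fun d _ => ?_)
  have h2 := G_err (t - ((d + 1 : ℕ) : ℝ) / b) δ h0 h1 H hH
  have h3 := G_err (t - (d : ℝ) / b) δ h0 h1 H hH
  rw [← mul_sub, abs_mul]
  refine mul_le_mul (hψ d) ?_ (abs_nonneg _) hB
  unfold bad
  rw [show B1 (t - ((d + 1 : ℕ) : ℝ) / b) - B1 (t - (d : ℝ) / b) -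
      (G δ H (t - ((d + 1 : ℕ) : ℝ) / b) - G δ H (t - (d : ℝ) / b)) =
      (B1 (t - ((d + 1 : ℕ) : ℝ) / b) - G δ H (t - ((d + 1 : ℕ) : ℝ) / b)) -
      (B1 (t - (d : ℝ) / b) - G δ H (t - (d : ℝ) / b)) by ring]
  refine (abs_sub _ _).trans ?_
  linarith

end Run7.h518.CLT
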