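import Pool.Agent.Run7.h518.CLTB

/-!
# Joint distribution of digits at several places over the multiples of an algebraic number, part 3
-/

set_option autoImplicit false

namespace Run7.h518.CLT

open Finset Filter Topology
open Pool.Agent.H469R2.NK (e norm_e e_add e_zero conj_e)
open Pool.Agent.R485.Mult (e_sum)

/-- the trigonometric part -/
lemma ap_sum (b : ℕ) (hb : 2 ≤ b) (δ : ℝ) (hδ : 0 < δ) (H : ℕ) (B : ℝ) (U : Finset ℕ)
    (ψ : ℕ → ℕ → ℝ) (hψ : ∀ k d, |ψ k d| ≤ B) (z : ℕ → ℝ) (M : ℕ) (E : ℝ) (hE0 : 0 ≤ E)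
    (hE : ∀ lam : ℕ → ℤ, (∀ k ∈ U, |(lam k : ℝ)| ≤ H) → (∀ k ∈ U, ¬ (b : ℤ) ∣ lam k) →
      ‖∑ m ∈ range M, e (∑ k ∈ U, lam k * ((b : ℝ) ^ k * z m) + 0)‖ ≤ E) :
    |∑ m ∈ range M, ∏ k ∈ U, ap b δ H (ψ k) ((b : ℝ) ^ k * z m)| ≤
      (2 * H * (b * B / δ)) ^ U.card * E := by
  classical
  have hB : 0 ≤ B := (abs_nonneg _).trans (hψ 0 0)
  rw [← Real.norm_eq_abs, ← Complex.norm_real, Complex.ofReal_sum]
  set t : Finset (U → ℤ) := Fintype.piFinset (fun _ : U => fr H) with ht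
  set ext : (U → ℤ) → ℕ → ℤ := fun p k => if h : k ∈ U then p ⟨k, h⟩ else 0 with hext
  have hextU : ∀ (p : U → ℤ) (i : U), ext p i = p i := by
    intro p i
    simp [hext]
  have h1 : ∀ m ∈ range M, ((∏ k ∈ U, ap b δ H (ψ k) ((b : ℝ) ^ k * z m) : ℝ) : ℂ) =
      ∑ p ∈ t, (∏ i : U, cf b δ (ψ i) (p i)) *
        e (∑ k ∈ U, ext p k * ((b : ℝ) ^ k * z m) + 0) := by
    intro m _
    rw [Complex.ofReal_prod, ← prod_coe_sort]
    simp_rw [ap_fourier b δ hδ.ne' H]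
    rw [prod_univ_sum]
    refine sum_congr rfl fun p _ => ?_
    rw [prod_mul_distrib, ← e_sum, add_zero, ← sum_coe_sort U]
    congr 2
    refine sum_congr rfl fun i _ => ?_
    rw [hextU]
  rw [sum_congr rfl h1, sum_comm]
  simp_rw [← mul_sum]
  have h2 : ∀ p ∈ t, ‖(∏ i : U, cf b δ (ψ i) (p i)) * ∑ m ∈ range M,
      e (∑ k ∈ U, ext p k * ((b : ℝ) ^ k * z m) + 0)‖ ≤ (b * B / δ) ^ U.card * E := by
    intro p hp
    rw [norm_mul]
    have hp' : ∀ i, p i ∈ fr H := fun i => (Fintype.mem_piFinset.1 hp) i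
    by_cases hdiv : ∃ i, (b : ℤ) ∣ p i
    · obtain ⟨i, hi⟩ := hdiv
      rw [prod_eq_zero (mem_univ i) (cf_dvd b hb δ _ _ hi), norm_zero, zero_mul]
      positivity
    · push Not at hdiv
      refine mul_le_mul ?_ ?_ (norm_nonneg _) (by positivity)
      · rw [norm_prod]
        calc ∏ i : U, ‖cf b δ (ψ i) (p i)‖ ≤ ∏ i : U, (b * B / δ) := by
              refine prod_le_prod (fun _ _ => norm_nonneg _) fun i _ => ?_
              refine norm_cf b δ hδ _ B (hψ i) _ ?_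
              have := hp' i
              simp only [fr, mem_erase] at this
              exact this.1
          _ = (b * B / δ) ^ U.card := by rw [prod_const, card_univ, Fintype.card_coe]
      · apply hE
        · intro k hk
          have h3 := hp' ⟨k, hk⟩
          simp only [fr, mem_erase, mem_Icc] at h3
          have h4 : ext p k = p ⟨k, hk⟩ := by simp [hext, hk]
          rw [h4]
          have h5 : |p ⟨k, hk⟩| ≤ (H : ℤ) := abs_le.2 ⟨h3.2.1, h3.2.2⟩
          exact_mod_cast h5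
        · intro k hk
          have h4 : ext p k = p ⟨k, hk⟩ := by simp [hext, hk]
          rw [h4]
          exact hdiv _
  refine (norm_sum_le _ _).trans ((sum_le_card_nsmul _ _ _ h2).trans ?_)
  rw [nsmul_eq_mul, ht, Fintype.card_piFinset, prod_const, card_univ, Fintype.card_coe]
  have h3 : ((fr H).card : ℝ) ≤ 2 * H := by
    have h4 : (fr H).card = 2 * H := by
      unfold fr
      rw [card_erase_of_mem (by rw [mem_Icc]; omega), Int.card_Icc]
      omega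
    rw [h4]
    push_cast
    exact le_rfl
  push_cast
  rw [mul_pow, mul_assoc]
  refine mul_le_mul_of_nonneg_right ?_ (by positivity)
  exact pow_le_pow_left₀ (by positivity) h3 _

/-- the final asymptotic comparison -/
lemma asy (ε C1 C2 : ℝ) (hε : 0 < ε) (A c : ℕ) :
    ∀ᶠ N : ℕ in atTop, ∀ M : ℝ, Real.exp (ε * N) ≤ M →
      C1 * (1 / (N : ℝ) ^ (A + 1)) * M + C2 * (N : ℝ) ^ c * Real.exp (ε / 2 * N) ≤
        M / (N : ℝ) ^ A := by
  have h1 : Tendsto (fun u : ℝ => Real.exp u / u ^ (c + A)) atTop atTop :=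
    Real.tendsto_exp_div_pow_atTop (c + A)
  have h2 : Tendsto (fun N : ℕ => ε / 2 * (N : ℝ)) atTop atTop :=
    tendsto_natCast_atTop_atTop.const_mul_atTop (by positivity)
  have h3 := (h1.comp h2).eventually_ge_atTop (2 * |C2| / (ε / 2) ^ (c + A))
  filter_upwards [h3, eventually_gt_atTop 0,
    tendsto_natCast_atTop_atTop.eventually_ge_atTop (2 * C1)] with N hN hN0 hN1 M hM
  have hN0' : (0 : ℝ) < N := by exact_mod_cast hN0
  have hM0 : 0 < M := lt_of_lt_of_le (Real.exp_pos _) hM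
  simp only [Function.comp] at hN
  rw [le_div_iff₀ (by positivity)] at hN
  have e1 : 2 * |C2| / (ε / 2) ^ (c + A) * (ε / 2 * (N : ℝ)) ^ (c + A) =
      2 * |C2| * (N : ℝ) ^ (c + A) := by
    rw [mul_pow]
    field_simp
  rw [e1] at hN
  have e2 : C1 * (1 / (N : ℝ) ^ (A + 1)) * M ≤ M / (N : ℝ) ^ A / 2 := by
    rw [pow_succ]
    rw [div_div, le_div_iff₀ (by positivity)]
    have : C1 * (1 / ((N : ℝ) ^ A * N)) * M * ((N : ℝ) ^ A * 2) = (2 * C1 / N) * M := by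
      field_simp
    rw [this]
    have h5 : 2 * C1 / N ≤ 1 := by rw [div_le_one hN0']; exact hN1
    nlinarith
  have e3 : C2 * (N : ℝ) ^ c * Real.exp (ε / 2 * N) ≤ M / (N : ℝ) ^ A / 2 := by
    rw [div_div, le_div_iff₀ (by positivity)]
    have h6 : Real.exp (ε * N) = Real.exp (ε / 2 * N) * Real.exp (ε / 2 * N) := by
      rw [← Real.exp_add]; congr 1; ring
    have h7 : C2 * (N : ℝ) ^ c * Real.exp (ε / 2 * N) * ((N : ℝ) ^ A * 2) ≤
        (2 * |C2| * (N : ℝ) ^ (c + A)) * Real.exp (ε / 2 * N) := by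
      have : C2 * (N : ℝ) ^ c * Real.exp (ε / 2 * N) * ((N : ℝ) ^ A * 2) =
        (2 * C2 * (N : ℝ) ^ (c + A)) * Real.exp (ε / 2 * N) := by rw [pow_add]; ring
      rw [this]
      have h8 := le_abs_self C2
      gcongr
    calc _ ≤ (2 * |C2| * (N : ℝ) ^ (c + A)) * Real.exp (ε / 2 * N) := h7
      _ ≤ Real.exp (ε / 2 * N) * Real.exp (ε / 2 * N) :=
        mul_le_mul_of_nonneg_right hN (Real.exp_pos _).le
      _ = Real.exp (ε * N) := h6.symm
      _ ≤ M := hM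
  linarith

/-- products of centred digit functions at several places have small means -/
theorem J0 (b : ℕ) (hb : 2 ≤ b) (x : ℝ) (hx : IsAlgebraic ℚ x) (hirr : Irrational x)
    (ε : ℝ) (hε : 0 < ε) (D A : ℕ) (B : ℝ) :
    ∃ N0 : ℕ, ∀ N : ℕ, N0 ≤ N → ∀ (y : ℝ) (J : ℤ) (M : ℕ), Real.exp (ε * N) ≤ M →
      ∀ U : Finset ℕ, U.Nonempty → U.card ≤ D → (∀ k ∈ U, k ≤ N) →
      ∀ ψ : ℕ → ℕ → ℝ, (∀ k d, |ψ k d| ≤ B) →
      |∑ m ∈ range M, ∏ k ∈ U, ps b (ψ k) ((b : ℝ) ^ k * (y + (J + m) * x))| ≤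
        M / (N : ℝ) ^ A := by
  by_cases hB : 0 ≤ B
  swap
  · refine ⟨0, fun N _ y J M _ U _ _ _ ψ hψ => ?_⟩
    exact absurd ((abs_nonneg _).trans (hψ 0 0)) hB
  obtain ⟨κ1, hκ1, N1, hS⟩ := exp_set b hb x hx hirr (ε / 2) (by positivity) D
  obtain ⟨κ2, hκ2, N2, hO⟩ := exp_one b hb x hx hirr (ε / 2) (by positivity)
  set C : ℝ := 6 * b * B + 1 with hC
  have hC1 : 1 ≤ C := by
    have : 0 ≤ (6 : ℝ) * b * B := by positivity
    linarith
  obtain ⟨a, ha⟩ : ∃ a : ℕ, a = A + 1 := ⟨_, rfl⟩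
  have hlim : ∀ κ : ℝ, 0 < κ → ∀ᶠ N : ℕ in atTop, (N : ℝ) ^ (2 * a) ≤ Real.exp (κ * N) := by
    intro κ hκ
    have h1 : Tendsto (fun u : ℝ => Real.exp u / u ^ (2 * a)) atTop atTop :=
      Real.tendsto_exp_div_pow_atTop (2 * a)
    have h2 : Tendsto (fun N : ℕ => κ * (N : ℝ)) atTop atTop :=
      tendsto_natCast_atTop_atTop.const_mul_atTop hκ
    filter_upwards [(h1.comp h2).eventually_ge_atTop (1 / κ ^ (2 * a)), eventually_gt_atTop 0]
      with N hN hN0
    have hN0' : (0 : ℝ) < N := by exact_mod_cast hN0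
    simp only [Function.comp] at hN
    rw [le_div_iff₀ (by positivity)] at hN
    have : 1 / κ ^ (2 * a) * (κ * N) ^ (2 * a) = (N : ℝ) ^ (2 * a) := by
      rw [mul_pow]; field_simp
    linarith
  set Q : ℝ := C ^ D * (D * (B * (b * 2))) with hQ
  have hQ0 : 0 ≤ Q := by positivity
  obtain ⟨N3, hN3⟩ := eventually_atTop.1 (hlim κ1 hκ1)
  obtain ⟨N4, hN4⟩ := eventually_atTop.1 (hlim κ2 hκ2)
  obtain ⟨N5, hN5⟩ := eventually_atTop.1 (asy ε (Q * 7) (Q * 4 + (2 * (b * B) + 1) ^ D * 2) hε A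
    (3 * a * D + 2 * a))
  refine ⟨max (max N1 N2) (max (max N3 N4) (max N5 3)), fun N hN y J M hM U hU hUD hUN ψ hψ => ?_⟩
  have g1 : N1 ≤ N := le_trans (le_trans (le_max_left _ _) (le_max_left _ _)) hN
  have g2 : N2 ≤ N := le_trans (le_trans (le_max_right _ _) (le_max_left _ _)) hN
  have g3 : N3 ≤ N := le_trans (le_trans (le_trans (le_max_left _ _) (le_max_left _ _))
    (le_max_right _ _)) hN
  have g4 : N4 ≤ N := le_trans (le_trans (le_trans (le_max_right _ _) (le_max_left _ _))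
    (le_max_right _ _)) hN
  have g5 : N5 ≤ N := le_trans (le_trans (le_trans (le_max_left _ _) (le_max_right _ _))
    (le_max_right _ _)) hN
  have g6 : 3 ≤ N := le_trans (le_trans (le_trans (le_max_right _ _) (le_max_right _ _))
    (le_max_right _ _)) hN
  have hNR : (3 : ℝ) ≤ N := by exact_mod_cast g6
  have hN0 : (0 : ℝ) < N := by linarith
  obtain ⟨δ, hδ⟩ : ∃ δ : ℝ, δ = 1 / (N : ℝ) ^ a := ⟨_, rfl⟩
  set H : ℕ := N ^ (2 * a) with hH
  have hHR : (H : ℝ) = (N : ℝ) ^ (2 * a) := by rw [hH]; push_cast; rfl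
  have hδ0 : 0 < δ := by rw [hδ]; positivity
  have hNa : (3 : ℝ) ≤ (N : ℝ) ^ a := by
    calc (3 : ℝ) ≤ N := hNR
      _ = (N : ℝ) ^ 1 := (pow_one _).symm
      _ ≤ (N : ℝ) ^ a := pow_le_pow_right₀ (by linarith) (by omega)
  have hδ1 : δ < 1 / 2 := by
    rw [hδ]
    apply one_div_lt_one_div_of_lt (by norm_num)
    linarith
  have hH1 : 1 ≤ H := Nat.one_le_pow _ _ (by omega)
  have hδHe : δ * H = (N : ℝ) ^ a := by
    rw [hδ, hHR, two_mul, pow_add]
    field_simp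
  have hδH : 1 ≤ δ * H := by rw [hδHe]; linarith
  have hδHi : 1 / (δ * H) = δ := by
    rw [hδHe, hδ]
  set E : ℝ := 2 * Real.exp (ε / 2 * N) with hE
  have hE0 : 0 ≤ E := by positivity
  set z : ℕ → ℝ := fun m => y + (J + m) * x with hz
  -- bad points
  have hbad : ∀ k ∈ U, ∀ c : ℝ, ∑ m ∈ range M, bad δ ((b : ℝ) ^ k * z m - c) ≤
      6 * δ * M + 2 * (H * E) := by
    intro k hk c
    have h1 := count_bad M (fun m => (b : ℝ) ^ k * z m - c) δ hδ0 hδ1 H hH1 E (by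
      intro h hh c'
      rw [mem_Icc] at hh
      have h2 := hO N g2 k h (hUN k hk) hh.1 (by
        refine le_trans ?_ (hN4 N g4)
        rw [← hHR]
        exact_mod_cast hh.2) y (-c + c') J M
      refine le_trans (le_of_eq ?_) h2
      congr 1
      refine sum_congr rfl fun m _ => ?_
      congr 1
      ring)
    refine h1.trans (le_of_eq ?_)
    have : (M : ℝ) / (H * δ) = M * δ := by
      rw [mul_comm (H : ℝ), div_eq_mul_one_div, hδHi]
    rw [this]
    ring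
  -- difference
  have hdiff : ∑ m ∈ range M, |∏ k ∈ U, ps b (ψ k) ((b : ℝ) ^ k * z m) -
      ∏ k ∈ U, ap b δ H (ψ k) ((b : ℝ) ^ k * z m)| ≤ Q * (7 * δ * M + 2 * (H * E)) := by
    calc ∑ m ∈ range M, |∏ k ∈ U, ps b (ψ k) ((b : ℝ) ^ k * z m) -
        ∏ k ∈ U, ap b δ H (ψ k) ((b : ℝ) ^ k * z m)|
        ≤ ∑ m ∈ range M, C ^ U.card * ∑ k ∈ U, B * ∑ d ∈ range b,
          (bad δ ((b : ℝ) ^ k * z m - ((d + 1 : ℕ) : ℝ) / b) +
            bad δ ((b : ℝ) ^ k * z m - (d : ℝ) / b) + 2 * δ) := by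
          refine sum_le_sum fun m _ => ?_
          refine (prod_diff U _ _ C hC1 (fun k _ => abs_ps b _ B (hψ k) _)
            (fun k _ => abs_ap b _ B (hψ k) _ δ hδ0 hδ1 H hH1 hδH)).trans ?_
          refine mul_le_mul_of_nonneg_left (sum_le_sum fun k _ => ?_) (by positivity)
          have := ps_ap b (ψ k) B (hψ k) ((b : ℝ) ^ k * z m) δ hδ0 hδ1 H hH1
          rw [hδHi] at this
          exact this
      _ = C ^ U.card * ∑ k ∈ U, B * ∑ d ∈ range b, ((∑ m ∈ range M,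
          bad δ ((b : ℝ) ^ k * z m - ((d + 1 : ℕ) : ℝ) / b)) + (∑ m ∈ range M,
            bad δ ((b : ℝ) ^ k * z m - (d : ℝ) / b)) + M * (2 * δ)) := by
          rw [← mul_sum, sum_comm]
          congr 1
          refine sum_congr rfl fun k _ => ?_
          rw [← mul_sum, sum_comm]
          congr 1
          refine sum_congr rfl fun d _ => ?_
          rw [sum_add_distrib, sum_add_distrib, sum_const, card_range, nsmul_eq_mul]
      _ ≤ C ^ D * ∑ k ∈ U, B * ∑ d ∈ range b, (2 * (7 * δ * M + 2 * (H * E))) := by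
          refine mul_le_mul (pow_le_pow_right₀ hC1 hUD) ?_ ?_ (by positivity)
          · refine sum_le_sum fun k hk => mul_le_mul_of_nonneg_left (sum_le_sum fun d _ => ?_) hB
            have h1 := hbad k hk (((d + 1 : ℕ) : ℝ) / b)
            have h2 := hbad k hk ((d : ℝ) / b)
            linarith
          · refine sum_nonneg fun k _ => mul_nonneg hB (sum_nonneg fun d _ => ?_)
            have h1 : 0 ≤ ∑ m ∈ range M, bad δ ((b : ℝ) ^ k * z m - ((d + 1 : ℕ) : ℝ) / b) :=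
              sum_nonneg fun _ _ => bad_nonneg _ _
            have h2 : 0 ≤ ∑ m ∈ range M, bad δ ((b : ℝ) ^ k * z m - (d : ℝ) / b) :=
              sum_nonneg fun _ _ => bad_nonneg _ _
            positivity
      _ = C ^ D * (U.card * (B * (b * (2 * (7 * δ * M + 2 * (H * E)))))) := by
          rw [sum_const, sum_const, card_range, nsmul_eq_mul, nsmul_eq_mul]
      _ ≤ C ^ D * (D * (B * (b * (2 * (7 * δ * M + 2 * (H * E)))))) := by
          have : (U.card : ℝ) ≤ D := by exact_mod_cast hUD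
          gcongr
      _ = Q * (7 * δ * M + 2 * (H * E)) := by rw [hQ]; ring
  -- main part
  have hmain := ap_sum b hb δ hδ0 H B U ψ hψ z M E hE0 (by
    intro lam hlam hdiv
    exact hS N g1 U hU hUD hUN lam (fun k hk => by
      refine (hlam k hk).trans ?_
      rw [hHR]
      exact hN3 N g3) hdiv y 0 J M)
  have hmain2 : (2 * H * (b * B / δ)) ^ U.card * E ≤
      ((2 * (b * B) + 1) ^ D * (N : ℝ) ^ (3 * a * D)) * E := by
    refine mul_le_mul_of_nonneg_right ?_ hE0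
    have h1 : 2 * (H : ℝ) * (b * B / δ) = (2 * (b * B)) * (N : ℝ) ^ (3 * a) := by
      rw [hδ, hHR, show 3 * a = 2 * a + a by ring, pow_add]
      field_simp
    rw [h1]
    have h2 : 0 ≤ 2 * ((b : ℝ) * B) := by positivity
    calc (2 * (b * B) * (N : ℝ) ^ (3 * a)) ^ U.card
        ≤ ((2 * (b * B) + 1) * (N : ℝ) ^ (3 * a)) ^ U.card := by gcongr; linarith
      _ ≤ ((2 * (b * B) + 1) * (N : ℝ) ^ (3 * a)) ^ D := by
        refine pow_le_pow_right₀ ?_ hUD
        have h3 : (1 : ℝ) ≤ (N : ℝ) ^ (3 * a) := one_le_pow₀ (by linarith)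
        nlinarith
      _ = _ := by rw [mul_pow, ← pow_mul]
  have hfin := hN5 N g5 M hM
  have hstep : |∑ m ∈ range M, ∏ k ∈ U, ps b (ψ k) ((b : ℝ) ^ k * z m)| ≤
      Q * (7 * δ * M + 2 * (H * E)) + ((2 * (b * B) + 1) ^ D * (N : ℝ) ^ (3 * a * D)) * E := by
    have h1 : ∑ m ∈ range M, ∏ k ∈ U, ps b (ψ k) ((b : ℝ) ^ k * z m) =
        ∑ m ∈ range M, (∏ k ∈ U, ps b (ψ k) ((b : ℝ) ^ k * z m) -
          ∏ k ∈ U, ap b δ H (ψ k) ((b : ℝ) ^ k * z m)) +
        ∑ m ∈ range M, ∏ k ∈ U, ap b δ H (ψ k) ((b : ℝ) ^ k * z m) := by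
      rw [← sum_add_distrib]
      exact sum_congr rfl fun m _ => by ring
    rw [h1]
    refine (abs_add_le _ _).trans (add_le_add ((abs_sum_le_sum_abs _ _).trans hdiff)
      (hmain.trans hmain2))
  refine hstep.trans (le_trans ?_ hfin)
  have h1 : (H : ℝ) ≤ (N : ℝ) ^ (3 * a * D + 2 * a) := by
    rw [hHR]
    exact pow_le_pow_right₀ (by linarith) (by omega)
  have h2 : (N : ℝ) ^ (3 * a * D) ≤ (N : ℝ) ^ (3 * a * D + 2 * a) :=
    pow_le_pow_right₀ (by linarith) (by omega)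
  have h3 : 0 ≤ Real.exp (ε / 2 * N) := (Real.exp_pos _).le
  have h4 : 0 ≤ (2 * ((b : ℝ) * B) + 1) ^ D := by positivity
  rw [hE, ← ha, ← hδ]
  have h5 : Q * (2 * (H * (2 * Real.exp (ε / 2 * N)))) ≤
      Q * (2 * ((N : ℝ) ^ (3 * a * D + 2 * a) * (2 * Real.exp (ε / 2 * N)))) := by gcongr
  have h6 : (2 * ((b : ℝ) * B) + 1) ^ D * (N : ℝ) ^ (3 * a * D) * (2 * Real.exp (ε / 2 * N)) ≤
      (2 * ((b : ℝ) * B) + 1) ^ D * (N : ℝ) ^ (3 * a * D + 2 * a) * (2 * Real.exp (ε / 2 * N)) := by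
    gcongr
  linarith

end Run7.h518.CLT
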