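import Mathlib

/-!
# Comparison of moments and characteristic functions of sums of digit functions
-/

set_option autoImplicit false

namespace Run7.h518.CLT

open Finset Filter Topology

/-- average over a finite set -/
noncomputable def av {α E : Type} [AddCommGroup E] [Module ℝ E] (s : Finset α) (f : α → E) : E :=
  ((s.card : ℝ)⁻¹) • ∑ a ∈ s, f a

/-- mean of a digit function -/
noncomputable def mean (b : ℕ) (φ : ℕ → ℝ) : ℝ := (∑ d ∈ range b, φ d) / b

section av
variable {α : Type}

lemma av_sub {E : Type} [AddCommGroup E] [Module ℝ E] (s : Finset α) (f g : α → E) :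
    av s (fun a => f a - g a) = av s f - av s g := by
  unfold av
  rw [sum_sub_distrib, smul_sub]

lemma av_add {E : Type} [AddCommGroup E] [Module ℝ E] (s : Finset α) (f g : α → E) :
    av s (fun a => f a + g a) = av s f + av s g := by
  unfold av
  rw [sum_add_distrib, smul_add]

lemma av_sum {E ι : Type} [AddCommGroup E] [Module ℝ E] (s : Finset α) (t : Finset ι)
    (f : ι → α → E) : av s (fun a => ∑ i ∈ t, f i a) = ∑ i ∈ t, av s (f i) := by
  unfold av
  rw [sum_comm, smul_sum]

lemma norm_av_le {E : Type} [NormedAddCommGroup E] [NormedSpace ℝ E] (s : Finset α) (f : α → E)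
    (g : α → ℝ) (h : ∀ a ∈ s, ‖f a‖ ≤ g a) : ‖av s f‖ ≤ av s g := by
  unfold av
  rw [norm_smul, smul_eq_mul]
  refine mul_le_mul ?_ ((norm_sum_le _ _).trans (sum_le_sum h)) (norm_nonneg _) (by positivity)
  rw [Real.norm_eq_abs, abs_of_nonneg (by positivity)]

lemma av_mul_left (s : Finset α) (c : ℝ) (f : α → ℝ) : av s (fun a => c * f a) = c * av s f := by
  unfold av
  rw [← mul_sum, smul_eq_mul, smul_eq_mul]
  ring

lemma av_mul_left_complex (s : Finset α) (c : ℂ) (f : α → ℂ) :
    av s (fun a => c * f a) = c * av s f := by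
  unfold av
  rw [← mul_sum, Complex.real_smul, Complex.real_smul]
  ring

lemma av_mono (s : Finset α) (f g : α → ℝ) (h : ∀ a ∈ s, f a ≤ g a) : av s f ≤ av s g := by
  unfold av
  rw [smul_eq_mul, smul_eq_mul]
  exact mul_le_mul_of_nonneg_left (sum_le_sum h) (by positivity)

lemma av_nonneg (s : Finset α) (f : α → ℝ) (h : ∀ a ∈ s, 0 ≤ f a) : 0 ≤ av s f := by
  unfold av
  rw [smul_eq_mul]
  exact mul_nonneg (by positivity) (sum_nonneg h)

lemma av_ofReal (s : Finset α) (f : α → ℝ) : av s (fun a => (f a : ℂ)) = ((av s f : ℝ) : ℂ) := by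
  unfold av
  rw [Complex.real_smul, smul_eq_mul]
  push_cast
  rfl

end av

/-- the moments of the sum of independent copies -/
noncomputable def imom (b n p : ℕ) (g : ℕ → ℝ) : ℝ :=
  ∑ q ∈ Fintype.piFinset (fun _ : Fin p => range n), ∏ k ∈ univ.image q,
    mean b (fun d => g d ^ (univ.filter (fun j => q j = k)).card)

/-- `η`-independence of order `p` with bound `B` -/
def Ind {α : Type} (s : Finset α) (c : ℕ → α → ℕ) (b n p : ℕ) (B η : ℝ) : Prop :=
  ∀ T : Finset ℕ, T ⊆ range n → T.card ≤ p → ∀ φ : ℕ → ℕ → ℝ, (∀ k d, |φ k d| ≤ B) →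
    |av s (fun a => ∏ k ∈ T, φ k (c k a)) - ∏ k ∈ T, mean b (φ k)| ≤ η

lemma moment_close {α : Type} (s : Finset α) (c : ℕ → α → ℕ) (b n p : ℕ) (g : ℕ → ℝ) (B η : ℝ)
    (hB : 1 ≤ B) (hg : ∀ d, |g d| ≤ B) (h : Ind s c b n p (B ^ p) η) :
    |av s (fun a => (∑ k ∈ range n, g (c k a)) ^ p) - imom b n p g| ≤ n ^ p * η := by
  classical
  have h1 : ∀ a, (∑ k ∈ range n, g (c k a)) ^ p =
      ∑ q ∈ Fintype.piFinset (fun _ : Fin p => range n), ∏ k ∈ univ.image q,
        (fun k d => g d ^ (univ.filter (fun j => q j = k)).card) k (c k a) := by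
    intro a
    have h2 := prod_univ_sum (fun _ : Fin p => range n) (fun _ k => g (c k a))
    rw [prod_const, card_univ, Fintype.card_fin] at h2
    rw [h2]
    refine sum_congr rfl fun q _ => ?_
    exact prod_comp (fun k => g (c k a)) q
  simp_rw [h1]
  rw [av_sum]
  unfold imom
  rw [← sum_sub_distrib]
  refine (abs_sum_le_sum_abs _ _).trans ?_
  refine (sum_le_card_nsmul _ _ η ?_).trans ?_
  · intro q hq
    refine h _ ?_ ?_ (fun k d => g d ^ (univ.filter (fun j => q j = k)).card) ?_
    · intro k hk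
      rw [mem_image] at hk
      obtain ⟨j, -, rfl⟩ := hk
      exact (Fintype.mem_piFinset.1 hq) j
    · exact card_image_le.trans (by simp)
    · intro k d
      rw [abs_pow]
      calc |g d| ^ _ ≤ B ^ (univ.filter (fun j => q j = k)).card :=
            pow_le_pow_left₀ (abs_nonneg _) (hg d) _
        _ ≤ B ^ p := pow_le_pow_right₀ hB ((card_filter_le _ _).trans (by simp))
  · rw [Fintype.card_piFinset_const, card_range, nsmul_eq_mul]
    push_cast
    exact le_rfl

/-- the independent model -/
def mdl (b n : ℕ) : Finset (Fin n → ℕ) := Fintype.piFinset (fun _ : Fin n => range b)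

/-- coordinates of the independent model -/
def cm (n : ℕ) (k : ℕ) (a : Fin n → ℕ) : ℕ := if h : k < n then a ⟨k, h⟩ else 0

lemma card_mdl (b n : ℕ) : (mdl b n).card = b ^ n := by
  unfold mdl
  rw [Fintype.card_piFinset_const, card_range]

lemma mdl_prod (b n : ℕ) (F : Fin n → ℕ → ℝ) :
    av (mdl b n) (fun a => ∏ i, F i (a i)) = ∏ i, mean b (F i) := by
  unfold av mean
  rw [card_mdl]
  have h := prod_univ_sum (fun _ : Fin n => range b) F
  unfold mdl
  rw [← h, prod_div_distrib, prod_const, card_univ, Fintype.card_fin, smul_eq_mul]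
  push_cast
  rw [div_eq_mul_inv]
  ring

lemma mdl_ind (b n p : ℕ) (hb : 1 ≤ b) (B : ℝ) : Ind (mdl b n) (cm n) b n p B 0 := by
  classical
  intro T hT _ φ _
  have hmean1 : mean b (fun _ => 1) = 1 := by
    unfold mean
    rw [sum_const, card_range, nsmul_eq_mul, mul_one, div_self]
    have : (0 : ℝ) < b := by exact_mod_cast hb
    exact this.ne'
  set F : Fin n → ℕ → ℝ := fun i d => if (i : ℕ) ∈ T then φ i d else 1 with hF
  have hT' : T = (univ.filter (fun i : Fin n => (i : ℕ) ∈ T)).map Fin.valEmbedding := by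
    ext k
    simp only [Finset.mem_map, mem_filter, mem_univ, true_and, Fin.valEmbedding_apply]
    constructor
    · intro hk
      exact ⟨⟨k, mem_range.1 (hT hk)⟩, hk, rfl⟩
    · rintro ⟨i, hi, rfl⟩
      exact hi
  have h1 : ∀ a : Fin n → ℕ, ∏ k ∈ T, φ k (cm n k a) = ∏ i, F i (a i) := by
    intro a
    have e1 : ∏ i, F i (a i) = ∏ i ∈ univ.filter (fun i : Fin n => (i : ℕ) ∈ T), φ i (a i) := by
      rw [prod_filter]
    rw [e1]
    conv_lhs => rw [hT']
    rw [prod_map]
    refine prod_congr rfl fun i _ => ?_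
    simp [cm]
  have h2 : ∏ k ∈ T, mean b (φ k) = ∏ i, mean b (F i) := by
    have e1 : ∀ i : Fin n, mean b (F i) = if (i : ℕ) ∈ T then mean b (φ i) else 1 := by
      intro i
      by_cases hi : (i : ℕ) ∈ T
      · rw [if_pos hi]
        congr 1
        funext d
        simp [hF, hi]
      · rw [if_neg hi, ← hmean1]
        congr 1
        funext d
        simp [hF, hi]
    rw [prod_congr rfl fun i _ => e1 i, ← prod_filter]
    conv_lhs => rw [hT']
    rw [prod_map]
    rfl
  simp_rw [h1]
  rw [mdl_prod b n, h2, sub_self, abs_zero]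

/-- exponential Taylor bound -/
lemma exp_taylor (n : ℕ) : ∀ x : ℝ, 0 ≤ x →
    ‖Complex.exp (x * Complex.I) - ∑ j ∈ range n, (x * Complex.I) ^ j / (j.factorial : ℂ)‖ ≤
      x ^ n / n.factorial := by
  induction n with
  | zero =>
    intro x _
    simp [Complex.norm_exp_ofReal_mul_I]
  | succ n ih =>
    intro x hx
    set f : ℝ → ℂ := fun x => Complex.exp (x * Complex.I) -
      ∑ j ∈ range (n + 1), (x * Complex.I) ^ j / (j.factorial : ℂ) with hf
    have hd : ∀ x : ℝ, HasDerivAt f (Complex.I * (Complex.exp (x * Complex.I) -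
        ∑ j ∈ range n, (x * Complex.I) ^ j / (j.factorial : ℂ))) x := by
      intro x
      have h0 : HasDerivAt (fun x : ℝ => (x : ℂ) * Complex.I) (1 * Complex.I) x :=
        (Complex.ofRealCLM.hasDerivAt (x := x)).mul_const Complex.I
      rw [one_mul] at h0
      have h1 : HasDerivAt (fun x : ℝ => Complex.exp (x * Complex.I))
          (Complex.exp (x * Complex.I) * Complex.I) x := h0.cexp
      have h2 : HasDerivAt (fun x : ℝ => ∑ j ∈ range (n + 1),
          ((x : ℂ) * Complex.I) ^ j / (j.factorial : ℂ))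
          (∑ j ∈ range (n + 1), ((j : ℂ) * ((x : ℂ) * Complex.I) ^ (j - 1) * Complex.I) /
            (j.factorial : ℂ)) x := by
        apply HasDerivAt.fun_sum
        intro j _
        exact (h0.pow j).div_const _
      have h3 := h1.sub h2
      refine h3.congr_deriv ?_
      rw [mul_sub, mul_comm Complex.I (Complex.exp _)]
      congr 1
      rw [sum_range_succ', mul_sum]
      simp only [Nat.cast_zero, zero_mul, zero_div, add_zero]
      refine sum_congr rfl fun j _ => ?_
      rw [Nat.add_sub_cancel, Nat.factorial_succ]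
      have h5 : ((j : ℂ) + 1) ≠ 0 := by exact_mod_cast Nat.succ_ne_zero j
      have h6 : ((j.factorial : ℕ) : ℂ) ≠ 0 := by exact_mod_cast Nat.factorial_ne_zero j
      push_cast
      field_simp
    have hB : ∀ x : ℝ, HasDerivAt (fun x : ℝ => x ^ (n + 1) / ((n + 1).factorial : ℝ))
        (x ^ n / (n.factorial : ℝ)) x := by
      intro x
      have h1 := (hasDerivAt_pow (n + 1) x).div_const ((n + 1).factorial : ℝ)
      refine h1.congr_deriv ?_
      rw [Nat.add_sub_cancel, Nat.factorial_succ]
      push_cast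
      have h6 : ((n.factorial : ℕ) : ℝ) ≠ 0 := by exact_mod_cast Nat.factorial_ne_zero n
      have h5 : ((n : ℝ) + 1) ≠ 0 := by positivity
      field_simp
    have hmain := image_norm_le_of_norm_deriv_right_le_deriv_boundary (f := f)
      (f' := fun x : ℝ => Complex.I * (Complex.exp (x * Complex.I) -
        ∑ j ∈ range n, (x * Complex.I) ^ j / (j.factorial : ℂ))) (a := 0) (b := x)
      (B := fun x : ℝ => x ^ (n + 1) / ((n + 1).factorial : ℝ))
      (B' := fun x : ℝ => x ^ n / (n.factorial : ℝ))
      (fun u _ => (hd u).continuousAt.continuousWithinAt)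
      (fun u _ => (hd u).hasDerivWithinAt)
      (by simp [hf, sum_range_succ'])
      (fun u => hB u)
      (fun u hu => by
        simp only [norm_mul, Complex.norm_I, one_mul]
        exact ih u hu.1)
    exact hmain (Set.right_mem_Icc.2 hx)

lemma exp_taylor_abs (n : ℕ) (x : ℝ) :
    ‖Complex.exp (x * Complex.I) - ∑ j ∈ range n, (x * Complex.I) ^ j / (j.factorial : ℂ)‖ ≤
      |x| ^ n / n.factorial := by
  rcases le_total 0 x with hx | hx
  · rw [abs_of_nonneg hx]
    exact exp_taylor n x hx
  · have h1 := exp_taylor n (-x) (by linarith)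
    rw [abs_of_nonpos hx]
    refine le_trans (le_of_eq ?_) h1
    have e1 : (starRingEnd ℂ) (Complex.exp (x * Complex.I) -
        ∑ j ∈ range n, (x * Complex.I) ^ j / (j.factorial : ℂ)) =
        Complex.exp (((-x : ℝ) : ℂ) * Complex.I) -
        ∑ j ∈ range n, (((-x : ℝ) : ℂ) * Complex.I) ^ j / (j.factorial : ℂ) := by
      rw [map_sub, ← Complex.exp_conj, map_sum]
      congr 1
      · congr 1
        rw [map_mul, Complex.conj_ofReal, Complex.conj_I]
        push_cast
        ring
      · refine sum_congr rfl fun j _ => ?_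
        rw [map_div₀, map_pow, map_mul, Complex.conj_ofReal, Complex.conj_I, Complex.conj_natCast]
        push_cast
        ring
    rw [← e1, RCLike.norm_conj]

end Run7.h518.CLT
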