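import Pool.Agent.Run7.h518.CLTD

/-!
# Characteristic functions of sums of digit functions
-/

set_option autoImplicit false

namespace Run7.h518.CLT

open Finset Filter Topology MeasureTheory ProbabilityTheory

/-- characteristic functions are close if the moments are -/
lemma char_close {α β : Type} (s1 : Finset α) (s2 : Finset β) (S1 : α → ℝ) (S2 : β → ℝ)
    (θ : ℝ) (p : ℕ) (κ : ℕ → ℝ)
    (h : ∀ j ≤ 2 * p, |av s1 (fun a => S1 a ^ j) - av s2 (fun a => S2 a ^ j)| ≤ κ j) :
    ‖av s1 (fun a => Complex.exp (((θ * S1 a : ℝ) : ℂ) * Complex.I)) -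
      av s2 (fun a => Complex.exp (((θ * S2 a : ℝ) : ℂ) * Complex.I))‖ ≤
      ∑ j ∈ range (2 * p), |θ| ^ j / j.factorial * κ j +
        |θ| ^ (2 * p) / (2 * p).factorial * (κ (2 * p) + 2 * av s2 (fun a => S2 a ^ (2 * p))) := by
  have key : ∀ {γ : Type} (s : Finset γ) (S : γ → ℝ),
      ‖av s (fun a => Complex.exp (((θ * S a : ℝ) : ℂ) * Complex.I)) -
        ∑ j ∈ range (2 * p), ((θ : ℂ) * Complex.I) ^ j / (j.factorial : ℂ) *
          ((av s (fun a => S a ^ j) : ℝ) : ℂ)‖ ≤
        |θ| ^ (2 * p) / (2 * p).factorial * av s (fun a => S a ^ (2 * p)) := by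
    intro γ s S
    have e1 : ∑ j ∈ range (2 * p), ((θ : ℂ) * Complex.I) ^ j / (j.factorial : ℂ) *
          ((av s (fun a => S a ^ j) : ℝ) : ℂ) =
        av s (fun a => ∑ j ∈ range (2 * p), (((θ * S a : ℝ) : ℂ) * Complex.I) ^ j /
          (j.factorial : ℂ)) := by
      rw [av_sum]
      refine sum_congr rfl fun j _ => ?_
      rw [← av_ofReal, ← av_mul_left_complex]
      congr 1
      funext a
      push_cast
      ring
    rw [e1, ← av_sub, ← av_mul_left]
    apply norm_av_le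
    intro a _
    refine (exp_taylor_abs (2 * p) (θ * S a)).trans (le_of_eq ?_)
    rw [abs_mul, mul_pow, pow_mul (|S a|), sq_abs, ← pow_mul]
    ring
  have k1 := key s1 S1
  have k2 := key s2 S2
  have h2p := (abs_le.1 (h (2 * p) le_rfl)).2
  have e2 : av s1 (fun a => S1 a ^ (2 * p)) ≤ κ (2 * p) + av s2 (fun a => S2 a ^ (2 * p)) := by
    linarith
  have e3 : ‖∑ j ∈ range (2 * p), ((θ : ℂ) * Complex.I) ^ j / (j.factorial : ℂ) *
          ((av s1 (fun a => S1 a ^ j) : ℝ) : ℂ) -
        ∑ j ∈ range (2 * p), ((θ : ℂ) * Complex.I) ^ j / (j.factorial : ℂ) *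
          ((av s2 (fun a => S2 a ^ j) : ℝ) : ℂ)‖ ≤
        ∑ j ∈ range (2 * p), |θ| ^ j / j.factorial * κ j := by
    rw [← sum_sub_distrib]
    refine (norm_sum_le _ _).trans (sum_le_sum fun j hj => ?_)
    rw [← mul_sub, norm_mul, norm_div, norm_pow, norm_mul, Complex.norm_I, mul_one,
      Complex.norm_real, Real.norm_eq_abs, Complex.norm_natCast, ← Complex.ofReal_sub,
      Complex.norm_real, Real.norm_eq_abs]
    exact mul_le_mul_of_nonneg_left (h j (mem_range.1 hj).le) (by positivity)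
  have e4 : 0 ≤ |θ| ^ (2 * p) / (2 * p).factorial := by positivity
  have e5 : |θ| ^ (2 * p) / (2 * p).factorial * av s1 (fun a => S1 a ^ (2 * p)) ≤
      |θ| ^ (2 * p) / (2 * p).factorial * (κ (2 * p) + av s2 (fun a => S2 a ^ (2 * p))) :=
    mul_le_mul_of_nonneg_left e2 e4
  set X := av s1 (fun a => Complex.exp (((θ * S1 a : ℝ) : ℂ) * Complex.I))
  set Y := av s2 (fun a => Complex.exp (((θ * S2 a : ℝ) : ℂ) * Complex.I))
  set P := ∑ j ∈ range (2 * p), ((θ : ℂ) * Complex.I) ^ j / (j.factorial : ℂ) *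
          ((av s1 (fun a => S1 a ^ j) : ℝ) : ℂ)
  set Q := ∑ j ∈ range (2 * p), ((θ : ℂ) * Complex.I) ^ j / (j.factorial : ℂ) *
          ((av s2 (fun a => S2 a ^ j) : ℝ) : ℂ)
  have e6 : X - Y = (X - P) + (P - Q) - (Y - Q) := by ring
  rw [e6]
  refine (norm_sub_le _ _).trans ?_
  have := norm_add_le (X - P) (P - Q)
  linarith

/-- sum over the coordinates of the model -/
lemma sum_cm (n : ℕ) (g : ℕ → ℝ) (a : Fin n → ℕ) :
    ∑ k ∈ range n, g (cm n k a) = ∑ i, g (a i) := by
  rw [← Fin.sum_univ_eq_sum_range (fun k => g (cm n k a)) n]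
  refine sum_congr rfl fun i _ => ?_
  simp [cm]

/-- exponential moments in the model -/
lemma mdl_exp (b n : ℕ) (hb : 1 ≤ b) (g : ℕ → ℝ) (B : ℝ) (hg : ∀ d, |g d| ≤ B)
    (h0 : mean b g = 0) (l : ℝ) :
    av (mdl b n) (fun a => Real.exp (l * ∑ k ∈ range n, g (cm n k a))) ≤
      Real.exp (n * (l ^ 2 * B ^ 2 * Real.exp (|l| * B))) := by
  have hb0 : (0 : ℝ) < b := by exact_mod_cast hb
  have hB : 0 ≤ B := (abs_nonneg _).trans (hg 0)
  have h1 : ∀ a : Fin n → ℕ, Real.exp (l * ∑ k ∈ range n, g (cm n k a)) =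
      ∏ i, Real.exp (l * g (a i)) := by
    intro a
    rw [sum_cm, mul_sum, Real.exp_sum]
  simp_rw [h1]
  rw [mdl_prod b n (fun _ d => Real.exp (l * g d)), prod_const, card_univ, Fintype.card_fin,
    Real.exp_nat_mul]
  apply pow_le_pow_left₀
  · unfold mean
    exact div_nonneg (sum_nonneg fun _ _ => (Real.exp_pos _).le) hb0.le
  · have h2 : ∀ d ∈ range b, Real.exp (l * g d) ≤
        1 + l * g d + l ^ 2 * B ^ 2 * Real.exp (|l| * B) := by
      intro d _
      have h3 := Complex.norm_exp_sub_sum_le_norm_mul_exp ((l * g d : ℝ) : ℂ) 2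
      simp only [sum_range_succ, range_zero, sum_empty, pow_zero, pow_one, Nat.factorial] at h3
      rw [← Complex.ofReal_exp] at h3
      norm_num at h3
      have e1 : ((Real.exp (l * g d) : ℝ) : ℂ) - (1 + (l : ℂ) * (g d : ℂ)) =
          ((Real.exp (l * g d) - (1 + l * g d) : ℝ) : ℂ) := by push_cast; ring
      have h4 : |Real.exp (l * g d) - (1 + l * g d)| ≤ (|l| * |g d|) ^ 2 *
          Real.exp (|l| * |g d|) := by
        rw [← Real.norm_eq_abs, ← Complex.norm_real, ← e1]
        push_cast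
        exact h3
      have h5 : (|l| * |g d|) ^ 2 * Real.exp (|l| * |g d|) ≤
          l ^ 2 * B ^ 2 * Real.exp (|l| * B) := by
        rw [mul_pow, sq_abs]
        have h6 := hg d
        have h7 : |g d| ^ 2 ≤ B ^ 2 := pow_le_pow_left₀ (abs_nonneg _) h6 2
        gcongr
      have h8 := (abs_le.1 h4).2
      linarith
    have h9 : mean b (fun d => Real.exp (l * g d)) ≤ 1 + l ^ 2 * B ^ 2 * Real.exp (|l| * B) := by
      unfold mean
      unfold mean at h0
      rw [div_le_iff₀ hb0]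
      refine (sum_le_sum h2).trans ?_
      rw [sum_add_distrib, sum_add_distrib, ← mul_sum, sum_const, sum_const, card_range,
        nsmul_eq_mul, nsmul_eq_mul]
      have h10 : ∑ d ∈ range b, g d = 0 := by
        rw [div_eq_zero_iff] at h0
        rcases h0 with h | h
        · exact h
        · exact absurd h hb0.ne'
      rw [h10]
      linarith
    refine h9.trans ?_
    have := Real.add_one_le_exp (l ^ 2 * B ^ 2 * Real.exp (|l| * B))
    linarith

/-- moments in the model -/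
lemma mdl_moment (b n : ℕ) (hb : 1 ≤ b) (hn : 1 ≤ n) (g : ℕ → ℝ) (B : ℝ) (hg : ∀ d, |g d| ≤ B)
    (h0 : mean b g = 0) (c : ℝ) (hc : 0 < c) (p : ℕ) :
    av (mdl b n) (fun a => (∑ k ∈ range n, g (cm n k a)) ^ (2 * p)) ≤
      (2 * p).factorial * (n : ℝ) ^ p / c ^ (2 * p) *
        (2 * Real.exp (c ^ 2 * B ^ 2 * Real.exp (c * B))) := by
  have hn0 : (0 : ℝ) < n := by exact_mod_cast hn
  have hB : 0 ≤ B := (abs_nonneg _).trans (hg 0)
  set l : ℝ := c / √n with hl
  have hsn : 0 < √(n : ℝ) := Real.sqrt_pos.2 hn0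
  have hsn1 : 1 ≤ √(n : ℝ) := by
    rw [Real.one_le_sqrt]; exact_mod_cast hn
  have hl0 : 0 < l := by positivity
  have hlc : l ≤ c := by
    rw [hl, div_le_iff₀ hsn]
    nlinarith
  have hl2 : n * l ^ 2 = c ^ 2 := by
    rw [hl, div_pow, Real.sq_sqrt hn0.le]
    field_simp
  have h1 : ∀ u : ℝ, u ^ (2 * p) ≤ (2 * p).factorial / l ^ (2 * p) *
      (Real.exp (l * u) + Real.exp (-l * u)) := by
    intro u
    have h2 := Real.pow_div_factorial_le_exp (|l * u|) (abs_nonneg _) (2 * p)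
    have h3 : Real.exp |l * u| ≤ Real.exp (l * u) + Real.exp (-l * u) := by
      rcases abs_cases (l * u) with ⟨h, -⟩ | ⟨h, -⟩
      · rw [h]; have := Real.exp_pos (-l * u); linarith
      · rw [h, ← neg_mul]; have := Real.exp_pos (l * u); linarith
    have h4 : |l * u| ^ (2 * p) = l ^ (2 * p) * u ^ (2 * p) := by
      rw [pow_mul, sq_abs, ← pow_mul, mul_pow]
    rw [h4] at h2
    have hf : (0 : ℝ) < ((2 * p).factorial : ℝ) := by exact_mod_cast Nat.factorial_pos _
    rw [div_le_iff₀ hf] at h2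
    rw [div_mul_eq_mul_div, le_div_iff₀ (by positivity)]
    nlinarith
  have h5 : av (mdl b n) (fun a => (∑ k ∈ range n, g (cm n k a)) ^ (2 * p)) ≤
      av (mdl b n) (fun a => (2 * p).factorial / l ^ (2 * p) *
        (Real.exp (l * ∑ k ∈ range n, g (cm n k a)) +
          Real.exp (-l * ∑ k ∈ range n, g (cm n k a)))) :=
    av_mono _ _ _ fun a _ => h1 _
  refine h5.trans ?_
  rw [av_mul_left, av_add]
  have h6 := mdl_exp b n hb g B hg h0 l
  have h7 := mdl_exp b n hb g B hg h0 (-l)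
  rw [abs_neg, neg_sq] at h7
  have h8 : (n : ℝ) * (l ^ 2 * B ^ 2 * Real.exp (|l| * B)) ≤
      c ^ 2 * B ^ 2 * Real.exp (c * B) := by
    have : (n : ℝ) * (l ^ 2 * B ^ 2 * Real.exp (|l| * B)) =
        (n * l ^ 2) * B ^ 2 * Real.exp (|l| * B) := by ring
    rw [this, hl2, abs_of_pos hl0]
    gcongr
  have h9 := Real.exp_le_exp.2 h8
  have h10 : ((2 * p).factorial : ℝ) / l ^ (2 * p) =
      (2 * p).factorial * (n : ℝ) ^ p / c ^ (2 * p) := by
    rw [hl, div_pow, pow_mul (√(n : ℝ)), Real.sq_sqrt hn0.le]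
    field_simp
  rw [h10]
  refine mul_le_mul_of_nonneg_left ?_ (by positivity)
  linarith

/-- the uniform measure on `range b` -/
noncomputable def um (b : ℕ) : Measure ℕ := ∑ d ∈ range b, (ENNReal.ofReal (1 / b)) • Measure.dirac d

lemma um_integral (b : ℕ) {E : Type} [NormedAddCommGroup E] [NormedSpace ℝ E] [CompleteSpace E]
    (f : ℕ → E) : ∫ a, f a ∂(um b) = (1 / (b : ℝ)) • ∑ d ∈ range b, f d := by
  unfold um
  rw [integral_finsetSum_measure]
  · rw [smul_sum]
    refine sum_congr rfl fun d _ => ?_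
    rw [integral_smul_measure, integral_dirac, ENNReal.toReal_ofReal (by positivity)]
  · intro d _
    apply Integrable.smul_measure _ ENNReal.ofReal_ne_top
    exact integrable_dirac (by simp)

instance um_prob (b : ℕ) [NeZero b] : IsProbabilityMeasure (um b) := by
  constructor
  unfold um
  rw [Measure.finsetSum_apply]
  simp only [Measure.smul_apply, measure_univ, smul_eq_mul, mul_one, sum_const, card_range,
    nsmul_eq_mul]
  have hb : (b : ℝ) ≠ 0 := by exact_mod_cast NeZero.ne b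
  rw [← ENNReal.ofReal_natCast, ← ENNReal.ofReal_mul (by positivity), mul_one_div_cancel hb,
    ENNReal.ofReal_one]

/-- limit of the characteristic function of the model -/
lemma mdl_char (b : ℕ) (hb : 1 ≤ b) (g : ℕ → ℝ) (σ : ℝ) (hσ : 0 < σ) (h0 : mean b g = 0)
    (h2 : mean b (fun d => g d ^ 2) = σ ^ 2) (t : ℝ) :
    Tendsto (fun n : ℕ => av (mdl b n) (fun a => Complex.exp
      (((t / (σ * √n) * ∑ k ∈ range n, g (cm n k a) : ℝ) : ℂ) * Complex.I))) atTop
      (𝓝 (Complex.exp (-t ^ 2 / 2))) := by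
  have hne : NeZero b := ⟨by omega⟩
  have hX : AEMeasurable (fun d : ℕ => g d / σ) (um b) := by fun_prop
  have m1 : (um b)[fun d : ℕ => g d / σ] = 0 := by
    rw [um_integral, ← sum_div]
    unfold mean at h0
    have : (1 / (b : ℝ)) • ((∑ d ∈ range b, g d) / σ) = ((∑ d ∈ range b, g d) / b) / σ := by
      rw [smul_eq_mul]; ring
    rw [this, h0, zero_div]
  have m2 : (um b)[(fun d : ℕ => g d / σ) ^ 2] = 1 := by
    simp only [Pi.pow_apply]
    rw [um_integral]
    simp_rw [div_pow]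
    rw [← sum_div]
    unfold mean at h2
    have : (1 / (b : ℝ)) • ((∑ d ∈ range b, g d ^ 2) / σ ^ 2) =
        ((∑ d ∈ range b, g d ^ 2) / b) / σ ^ 2 := by
      rw [smul_eq_mul]; ring
    rw [this, h2, div_self (by positivity)]
  have h3 := tendsto_charFun_inv_sqrt_mul_pow hX m1 m2 t
  refine h3.congr fun n => ?_
  rw [charFun_apply_real, integral_map hX (by fun_prop), um_integral]
  have e1 : ∀ a : Fin n → ℕ, Complex.exp
      (((t / (σ * √n) * ∑ k ∈ range n, g (cm n k a) : ℝ) : ℂ) * Complex.I) =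
      ∏ i, Complex.exp (((t / (σ * √n) * g (a i) : ℝ) : ℂ) * Complex.I) := by
    intro a
    rw [← Complex.exp_sum, sum_cm, mul_sum, Complex.ofReal_sum, sum_mul]
  simp_rw [e1]
  unfold av
  rw [card_mdl]
  have h := prod_univ_sum (fun _ : Fin n => range b)
    (fun _ d => Complex.exp (((t / (σ * √n) * g d : ℝ) : ℂ) * Complex.I))
  unfold mdl
  rw [← h, prod_const, card_univ, Fintype.card_fin, Complex.real_smul, Complex.real_smul, mul_pow]
  congr 1
  · push_cast
    rw [one_div, inv_pow]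
  · congr 1
    refine sum_congr rfl fun d _ => ?_
    congr 1
    push_cast
    ring

end Run7.h518.CLT
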