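import Pool.Agent.Run7.h518.CLTC
import Pool.Agent.Run7.h518.CLTE

/-!
# Approximate independence of the digits over the multiples of an algebraic number
-/

set_option autoImplicit false

namespace Run7.h518.CLT

open Finset Filter Topology
open Pool.Agent.R485.Mult (indicator_eq)

/-- the digit of `t` after the point, times `b` -/
lemma dig_ps (b : ℕ) (hb : 2 ≤ b) (φ : ℕ → ℝ) (t : ℝ) :
    φ ((⌊(b : ℝ) * t⌋ % (b : ℤ)).toNat) = mean b φ + ps b φ t := by
  have hb0 : (0 : ℝ) < b := by positivity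
  have hu0 := Int.fract_nonneg t
  have hu1 := Int.fract_lt_one t
  set u := Int.fract t with hu
  have ht : t = (⌊t⌋ : ℤ) + u := (Int.floor_add_fract t).symm
  have hf : ⌊(b : ℝ) * t⌋ = b * ⌊t⌋ + ⌊(b : ℝ) * u⌋ := by
    have : (b : ℝ) * t = ((b * ⌊t⌋ : ℤ) : ℝ) + b * u := by
      push_cast
      rw [← mul_add, ← ht]
    rw [this, Int.floor_intCast_add]
  have hc0 : 0 ≤ ⌊(b : ℝ) * u⌋ := Int.floor_nonneg.2 (by positivity)
  have hc1 : ⌊(b : ℝ) * u⌋ < b := by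
    rw [Int.floor_lt]
    push_cast
    nlinarith
  have hmod : ⌊(b : ℝ) * t⌋ % (b : ℤ) = ⌊(b : ℝ) * u⌋ := by
    rw [hf, Int.mul_add_emod_self_left, Int.emod_eq_of_lt hc0 hc1]
  rw [hmod]
  obtain ⟨c, hc⟩ := Int.eq_ofNat_of_zero_le hc0
  rw [hc] at hc1 ⊢
  rw [Int.toNat_natCast]
  have hcb : c < b := by exact_mod_cast hc1
  have hfl : (c : ℝ) ≤ b * u ∧ (b : ℝ) * u < c + 1 := by
    have := Int.floor_eq_iff.1 hc
    push_cast at this
    exact this
  unfold ps mean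
  have h1 : ∀ d ∈ range b, φ d * (B1 (t - ((d + 1 : ℕ) : ℝ) / b) - B1 (t - (d : ℝ) / b)) =
      φ d * (if d = c then 1 else 0) - φ d / b := by
    intro d hd
    have hdb : (d : ℝ) + 1 ≤ b := by exact_mod_cast mem_range.1 hd
    have h2 := indicator_eq t ((d : ℝ) / b) (((d + 1 : ℕ) : ℝ) / b) (by positivity)
      (by push_cast; gcongr; linarith) (by rw [div_le_one hb0]; push_cast; exact hdb)
    unfold B1
    rw [← h2]
    have h3 : ((d : ℝ) / b ≤ Int.fract t ∧ Int.fract t < ((d + 1 : ℕ) : ℝ) / b) ↔ d = c := by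
      rw [div_le_iff₀ hb0, lt_div_iff₀ hb0, ← hu]
      push_cast
      constructor
      · rintro ⟨h4, h5⟩
        have h6 : (d : ℝ) < c + 1 := by linarith [hfl.2]
        have h7 : (c : ℝ) < d + 1 := by linarith [hfl.1]
        have h8 : d < c + 1 := by exact_mod_cast h6
        have h9 : c < d + 1 := by exact_mod_cast h7
        omega
      · rintro rfl
        exact ⟨by linarith [hfl.1], by linarith [hfl.2]⟩
    rw [if_congr h3 rfl rfl]
    have h4 : (((d + 1 : ℕ) : ℝ) / b - (d : ℝ) / b) = 1 / b := by push_cast; ring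
    rw [h4]
    ring
  rw [sum_congr rfl h1, sum_sub_distrib, ← sum_div]
  simp only [mul_ite, mul_one, mul_zero]
  rw [sum_ite_eq' (range b) c φ, if_pos (mem_range.2 hcb)]
  ring

lemma abs_mean (b : ℕ) (hb : 1 ≤ b) (φ : ℕ → ℝ) (B : ℝ) (hφ : ∀ d, |φ d| ≤ B) :
    |mean b φ| ≤ B := by
  unfold mean
  have hb0 : (0 : ℝ) < b := by exact_mod_cast hb
  rw [abs_div, abs_of_pos hb0, div_le_iff₀ hb0]
  refine (abs_sum_le_sum_abs _ _).trans ?_
  refine (sum_le_card_nsmul _ _ B fun d _ => hφ d).trans ?_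
  rw [card_range, nsmul_eq_mul, mul_comm]

/-- the digits of `y + (J + m) x`, `m < M`, are approximately independent -/
theorem ind_main (b : ℕ) (hb : 2 ≤ b) (x : ℝ) (hx : IsAlgebraic ℚ x) (hirr : Irrational x)
    (ε : ℝ) (hε : 0 < ε) (p A : ℕ) (B : ℝ) :
    ∃ N0 : ℕ, ∀ n : ℕ, N0 ≤ n → ∀ (y : ℝ) (J : ℤ) (M : ℕ), Real.exp (ε * n) ≤ M →
      Ind (range M) (fun k m => (⌊(b : ℝ) * ((b : ℝ) ^ k * (y + (J + m) * x))⌋ % (b : ℤ)).toNat)
        b n p B (1 / (n : ℝ) ^ A) := by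
  classical
  obtain ⟨N1, hN1⟩ := J0 b hb x hx hirr ε hε p (A + 1) B
  obtain ⟨N2, hN2⟩ := exists_nat_ge ((2 : ℝ) ^ p * (max B 1) ^ p)
  refine ⟨max (max N1 N2) 1, fun n hn y J M hM T hT hTp φ hφ => ?_⟩
  have hn1 : N1 ≤ n := le_trans (le_trans (le_max_left _ _) (le_max_left _ _)) hn
  have hn2 : N2 ≤ n := le_trans (le_trans (le_max_right _ _) (le_max_left _ _)) hn
  have hn3 : 1 ≤ n := le_trans (le_max_right _ _) hn
  have hn0 : (0 : ℝ) < n := by exact_mod_cast hn3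
  have hM0 : (0 : ℝ) < M := lt_of_lt_of_le (Real.exp_pos _) hM
  have hB1 : (1 : ℝ) ≤ max B 1 := le_max_right _ _
  have e1 : ∀ m : ℕ, ∏ k ∈ T, φ k ((⌊(b : ℝ) * ((b : ℝ) ^ k * (y + (J + m) * x))⌋ %
      (b : ℤ)).toNat) = ∑ U ∈ T.powerset, (∏ k ∈ U, ps b (φ k) ((b : ℝ) ^ k * (y + (J + m) * x))) *
        ∏ k ∈ T \ U, mean b (φ k) := by
    intro m
    rw [← prod_add]
    refine prod_congr rfl fun k _ => ?_
    rw [dig_ps b hb (φ k), add_comm]
  simp_rw [e1]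
  rw [av_sum]
  rw [← add_sum_erase _ _ (empty_mem_powerset T)]
  have e2 : av (range M) (fun m : ℕ => (∏ k ∈ (∅ : Finset ℕ), ps b (φ k)
      ((b : ℝ) ^ k * (y + (J + m) * x))) * ∏ k ∈ T \ ∅, mean b (φ k)) = ∏ k ∈ T, mean b (φ k) := by
    unfold av
    simp only [prod_empty, one_mul, sdiff_empty]
    rw [sum_const, card_range, nsmul_eq_mul, smul_eq_mul,
      ← mul_assoc, inv_mul_cancel₀ hM0.ne', one_mul]
  rw [e2, add_sub_cancel_left]
  refine (abs_sum_le_sum_abs _ _).trans ?_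
  have e3 : ∀ U ∈ T.powerset.erase ∅, |av (range M) (fun m : ℕ => (∏ k ∈ U, ps b (φ k)
      ((b : ℝ) ^ k * (y + (J + m) * x))) * ∏ k ∈ T \ U, mean b (φ k))| ≤
      1 / (n : ℝ) ^ (A + 1) * (max B 1) ^ p := by
    intro U hU
    rw [mem_erase, mem_powerset] at hU
    obtain ⟨hU0, hUT⟩ := hU
    unfold av
    rw [card_range, smul_eq_mul, ← sum_mul, ← mul_assoc, abs_mul, abs_mul,
      abs_of_pos (inv_pos.2 hM0)]
    have h1 := hN1 n hn1 y J M hM U (nonempty_iff_ne_empty.2 hU0)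
      ((card_le_card hUT).trans hTp) (fun k hk => (mem_range.1 (hT (hUT hk))).le) φ hφ
    have h2 : |∏ k ∈ T \ U, mean b (φ k)| ≤ (max B 1) ^ p := by
      rw [abs_prod]
      calc ∏ k ∈ T \ U, |mean b (φ k)| ≤ ∏ k ∈ T \ U, max B 1 :=
            prod_le_prod (fun _ _ => abs_nonneg _) fun k _ =>
              (abs_mean b (by omega) (φ k) B (hφ k)).trans (le_max_left _ _)
        _ = (max B 1) ^ (T \ U).card := by rw [prod_const]
        _ ≤ (max B 1) ^ p := pow_le_pow_right₀ hB1 ((card_le_card sdiff_subset).trans hTp)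
    refine mul_le_mul ?_ h2 (abs_nonneg _) (by positivity)
    rw [inv_mul_le_iff₀ hM0]
    refine h1.trans (le_of_eq ?_)
    ring
  refine (sum_le_card_nsmul _ _ _ e3).trans ?_
  rw [nsmul_eq_mul]
  have h4 : ((T.powerset.erase ∅).card : ℝ) ≤ (2 : ℝ) ^ p := by
    have h5 : (T.powerset.erase ∅).card ≤ 2 ^ p := by
      refine (card_le_card (erase_subset _ _)).trans ?_
      rw [card_powerset]
      exact Nat.pow_le_pow_right (by norm_num) hTp
    exact_mod_cast h5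
  have h6 : (2 : ℝ) ^ p * (max B 1) ^ p ≤ n := hN2.trans (by exact_mod_cast hn2)
  have h7 : (0 : ℝ) < (n : ℝ) ^ A := by positivity
  calc ((T.powerset.erase ∅).card : ℝ) * (1 / (n : ℝ) ^ (A + 1) * (max B 1) ^ p)
      ≤ (2 : ℝ) ^ p * (1 / (n : ℝ) ^ (A + 1) * (max B 1) ^ p) := by gcongr
    _ = ((2 : ℝ) ^ p * (max B 1) ^ p) * (1 / (n : ℝ) ^ (A + 1)) := by ring
    _ ≤ n * (1 / (n : ℝ) ^ (A + 1)) := by gcongr
    _ = 1 / (n : ℝ) ^ A := by rw [pow_succ]; field_simp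

end Run7.h518.CLT
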