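import Pool.Agent.Run7.h518.CLTE

/-!
# A uniform central limit theorem for approximately independent digit systems
-/

set_option autoImplicit false

namespace Run7.h518.CLT

open Finset Filter Topology MeasureTheory ProbabilityTheory

lemma Ind.mono {α : Type} {s : Finset α} {c : ℕ → α → ℕ} {b n p p' : ℕ} {B B' η : ℝ}
    (h : Ind s c b n p B η) (hp : p' ≤ p) (hB : B' ≤ B) : Ind s c b n p' B' η :=
  fun T hT hc φ hφ => h T hT (hc.trans hp) φ fun k d => (hφ k d).trans hB

/-- the difference of the characteristic functions -/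
lemma char_bound (b : ℕ) (hb : 1 ≤ b) (g : ℕ → ℝ) (B : ℝ) (hB : 1 ≤ B) (hg : ∀ d, |g d| ≤ B)
    (h0 : mean b g = 0) (σ : ℝ) (hσ : 0 < σ) (t : ℝ) (p : ℕ) {α : Type} (s : Finset α)
    (c : ℕ → α → ℕ) (n : ℕ) (hn : 1 ≤ n)
    (hI : Ind s c b n (2 * p) (B ^ (2 * p)) (1 / (n : ℝ) ^ (2 * p + 1))) :
    ‖av s (fun a => Complex.exp (((t / (σ * √n) * ∑ k ∈ range n, g (c k a) : ℝ) : ℂ) *
        Complex.I)) -
      av (mdl b n) (fun a => Complex.exp (((t / (σ * √n) * ∑ k ∈ range n, g (cm n k a) : ℝ) : ℂ) *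
        Complex.I))‖ ≤ 1 / n * Real.exp (|t| / σ) +
      4 * Real.exp ((2 * |t| / σ + 1) ^ 2 * B ^ 2 * Real.exp ((2 * |t| / σ + 1) * B)) *
        (1 / 2) ^ (2 * p) := by
  have hn0 : (0 : ℝ) < n := by exact_mod_cast hn
  have hn1 : (1 : ℝ) ≤ n := by exact_mod_cast hn
  have hsn : 0 < √(n : ℝ) := Real.sqrt_pos.2 hn0
  have hsn1 : 1 ≤ √(n : ℝ) := by
    rw [Real.one_le_sqrt]; exact hn1
  set θ : ℝ := t / (σ * √n) with hθ
  have hθ1 : |θ| ≤ |t| / σ := by
    rw [hθ, abs_div, abs_mul, abs_of_pos hσ, abs_of_pos hsn]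
    gcongr
    nlinarith
  set κ : ℕ → ℝ := fun _ => 1 / n with hκ
  have h1 : ∀ j ≤ 2 * p, |av s (fun a => (∑ k ∈ range n, g (c k a)) ^ j) -
      av (mdl b n) (fun a => (∑ k ∈ range n, g (cm n k a)) ^ j)| ≤ κ j := by
    intro j hj
    have hBj : B ^ j ≤ B ^ (2 * p) := pow_le_pow_right₀ hB hj
    have e1 := moment_close s c b n j g B _ hB hg (hI.mono hj hBj)
    have e2 := moment_close (mdl b n) (cm n) b n j g B 0 hB hg (mdl_ind b n j hb (B ^ j))
    rw [mul_zero] at e2
    have e3 := abs_nonpos_iff.1 e2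
    have e4 : av (mdl b n) (fun a => (∑ k ∈ range n, g (cm n k a)) ^ j) = imom b n j g := by
      linarith
    rw [e4]
    refine e1.trans ?_
    have e5 : (n : ℝ) ^ j ≤ (n : ℝ) ^ (2 * p) := pow_le_pow_right₀ hn1 hj
    calc (n : ℝ) ^ j * (1 / (n : ℝ) ^ (2 * p + 1)) ≤
          (n : ℝ) ^ (2 * p) * (1 / (n : ℝ) ^ (2 * p + 1)) := by gcongr
      _ = κ j := by rw [hκ, pow_succ]; field_simp
  have h2 := char_close s (mdl b n) (fun a => ∑ k ∈ range n, g (c k a))
    (fun a => ∑ k ∈ range n, g (cm n k a)) θ p κ h1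
  refine h2.trans ?_
  set C : ℝ := 2 * |t| / σ + 1 with hC
  have hC0 : 0 < C := by positivity
  have h3 := mdl_moment b n hb hn g B hg h0 C hC0 p
  have h4 : ∑ j ∈ range (2 * p), |θ| ^ j / j.factorial * κ j +
      |θ| ^ (2 * p) / (2 * p).factorial * κ (2 * p) ≤ 1 / n * Real.exp (|t| / σ) := by
    rw [← sum_range_succ (fun j => |θ| ^ j / (j.factorial : ℝ) * κ j), hκ]
    simp only
    rw [← sum_mul, mul_comm]
    refine mul_le_mul_of_nonneg_left ?_ (by positivity)
    exact (Real.sum_le_exp_of_nonneg (abs_nonneg θ) _).trans (Real.exp_le_exp.2 hθ1)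
  have h5 : |θ| ^ (2 * p) / (2 * p).factorial *
      (2 * av (mdl b n) (fun a => (∑ k ∈ range n, g (cm n k a)) ^ (2 * p))) ≤
      4 * Real.exp (C ^ 2 * B ^ 2 * Real.exp (C * B)) * (1 / 2) ^ (2 * p) := by
    have hf : (0 : ℝ) < ((2 * p).factorial : ℝ) := by exact_mod_cast Nat.factorial_pos _
    calc |θ| ^ (2 * p) / (2 * p).factorial *
          (2 * av (mdl b n) (fun a => (∑ k ∈ range n, g (cm n k a)) ^ (2 * p))) ≤
          |θ| ^ (2 * p) / (2 * p).factorial *
            (2 * ((2 * p).factorial * (n : ℝ) ^ p / C ^ (2 * p) *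
              (2 * Real.exp (C ^ 2 * B ^ 2 * Real.exp (C * B))))) := by gcongr
      _ = (|θ| ^ (2 * p) * (n : ℝ) ^ p / C ^ (2 * p)) *
            (4 * Real.exp (C ^ 2 * B ^ 2 * Real.exp (C * B))) := by
          field_simp
          ring
      _ ≤ (1 / 2) ^ (2 * p) * (4 * Real.exp (C ^ 2 * B ^ 2 * Real.exp (C * B))) := by
          refine mul_le_mul_of_nonneg_right ?_ (by positivity)
          have e1 : |θ| ^ (2 * p) * (n : ℝ) ^ p / C ^ (2 * p) = ((|t| / σ) / C) ^ (2 * p) := by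
            have e2 : (n : ℝ) ^ p = √(n : ℝ) ^ (2 * p) := by
              rw [pow_mul, Real.sq_sqrt hn0.le]
            rw [e2, ← mul_pow, ← div_pow]
            congr 2
            rw [hθ, abs_div, abs_mul, abs_of_pos hσ, abs_of_pos hsn]
            field_simp
          rw [e1]
          apply pow_le_pow_left₀ (by positivity)
          rw [div_le_div_iff₀ hC0 (by norm_num), hC]
          have : 2 * |t| / σ = 2 * (|t| / σ) := by ring
          rw [this]
          linarith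
      _ = _ := by ring
  have h6 : |θ| ^ (2 * p) / (2 * p).factorial * (κ (2 * p) +
      2 * av (mdl b n) (fun a => (∑ k ∈ range n, g (cm n k a)) ^ (2 * p))) =
      |θ| ^ (2 * p) / (2 * p).factorial * κ (2 * p) + |θ| ^ (2 * p) / (2 * p).factorial *
      (2 * av (mdl b n) (fun a => (∑ k ∈ range n, g (cm n k a)) ^ (2 * p))) := by ring
  rw [h6]
  linarith

/-- uniform convergence of characteristic functions -/
lemma char_unif (b : ℕ) (hb : 1 ≤ b) (g : ℕ → ℝ) (B : ℝ) (hB : 1 ≤ B) (hg : ∀ d, |g d| ≤ B)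
    (h0 : mean b g = 0) (σ : ℝ) (hσ : 0 < σ) (h2 : mean b (fun d => g d ^ 2) = σ ^ 2)
    {α : Type} (P : ℕ → Finset α → (ℕ → α → ℕ) → Prop)
    (hP : ∀ (p A : ℕ) (B : ℝ), ∃ N0 : ℕ, ∀ n : ℕ, N0 ≤ n → ∀ s c, P n s c →
      Ind s c b n p B (1 / (n : ℝ) ^ A))
    (t : ℝ) (η : ℝ) (hη : 0 < η) :
    ∃ n0 : ℕ, ∀ n : ℕ, n0 ≤ n → ∀ s c, P n s c →
      ‖av s (fun a => Complex.exp (((t / (σ * √n) * ∑ k ∈ range n, g (c k a) : ℝ) : ℂ) *
        Complex.I)) - Complex.exp (-t ^ 2 / 2)‖ < η := by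
  set E : ℝ := 4 * Real.exp ((2 * |t| / σ + 1) ^ 2 * B ^ 2 * Real.exp ((2 * |t| / σ + 1) * B))
    with hE
  have hE0 : 0 < E := by positivity
  obtain ⟨p, hp⟩ := exists_pow_lt_of_lt_one (show (0 : ℝ) < η / 4 / E by positivity)
    (show ((1 : ℝ) / 2) ^ 2 < 1 by norm_num)
  rw [← pow_mul] at hp
  obtain ⟨N1, hN1⟩ := hP (2 * p) (2 * p + 1) (B ^ (2 * p))
  obtain ⟨N2, hN2⟩ := exists_nat_ge (Real.exp (|t| / σ) / (η / 4))
  have hlim := mdl_char b hb g σ hσ h0 h2 t
  rw [Metric.tendsto_atTop] at hlim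
  obtain ⟨N3, hN3⟩ := hlim (η / 4) (by positivity)
  refine ⟨max (max N1 N2) (max N3 1), fun n hn s c hsc => ?_⟩
  have hn1 : N1 ≤ n := le_trans (le_trans (le_max_left _ _) (le_max_left _ _)) hn
  have hn2 : N2 ≤ n := le_trans (le_trans (le_max_right _ _) (le_max_left _ _)) hn
  have hn3 : N3 ≤ n := le_trans (le_trans (le_max_left _ _) (le_max_right _ _)) hn
  have hn4 : 1 ≤ n := le_trans (le_trans (le_max_right _ _) (le_max_right _ _)) hn
  have hn0 : (0 : ℝ) < n := by exact_mod_cast hn4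
  have e1 := char_bound b hb g B hB hg h0 σ hσ t p s c n hn4 (hN1 n hn1 s c hsc)
  have e2 := hN3 n hn3
  rw [dist_eq_norm] at e2
  have e3 : 1 / (n : ℝ) * Real.exp (|t| / σ) ≤ η / 4 := by
    have h5 : Real.exp (|t| / σ) / (η / 4) ≤ n := hN2.trans (by exact_mod_cast hn2)
    rw [div_le_iff₀ (by positivity)] at h5
    rw [one_div, inv_mul_le_iff₀ hn0]
    exact h5
  have e4 : E * (1 / 2) ^ (2 * p) < η / 4 := by
    rw [lt_div_iff₀ hE0] at hp
    linarith
  have e5 := norm_sub_le_norm_sub_add_norm_sub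
    (av s (fun a => Complex.exp (((t / (σ * √n) * ∑ k ∈ range n, g (c k a) : ℝ) : ℂ) *
        Complex.I)))
    (av (mdl b n) (fun a => Complex.exp (((t / (σ * √n) * ∑ k ∈ range n, g (cm n k a) : ℝ) : ℂ) *
        Complex.I))) (Complex.exp (-t ^ 2 / 2))
  rw [← hE] at e1
  linarith

/-- the distribution of a function on a finite set -/
noncomputable def dm {α : Type} (s : Finset α) (f : α → ℝ) : Measure ℝ :=
  ∑ a ∈ s, (ENNReal.ofReal (1 / s.card)) • Measure.dirac (f a)

lemma dm_prob {α : Type} (s : Finset α) (hs : s.Nonempty) (f : α → ℝ) :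
    IsProbabilityMeasure (dm s f) := by
  constructor
  unfold dm
  rw [Measure.finsetSum_apply]
  simp only [Measure.smul_apply, measure_univ, smul_eq_mul, mul_one, sum_const,
    nsmul_eq_mul]
  have hb : ((s.card : ℕ) : ℝ) ≠ 0 := by exact_mod_cast (card_pos.2 hs).ne'
  rw [← ENNReal.ofReal_natCast, ← ENNReal.ofReal_mul (by positivity), mul_one_div_cancel hb,
    ENNReal.ofReal_one]

lemma dm_charFun {α : Type} (s : Finset α) (f : α → ℝ) (t : ℝ) :
    charFun (dm s f) t = av s (fun a => Complex.exp (((t * f a : ℝ) : ℂ) * Complex.I)) := by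
  rw [charFun_apply_real]
  unfold dm av
  rw [integral_finsetSum_measure]
  · rw [smul_sum]
    refine sum_congr rfl fun d _ => ?_
    rw [integral_smul_measure, integral_dirac, ENNReal.toReal_ofReal (by positivity), one_div]
    push_cast
    rfl
  · intro d _
    apply Integrable.smul_measure _ ENNReal.ofReal_ne_top
    exact integrable_dirac (by simp)

lemma dm_Iic {α : Type} (s : Finset α) (f : α → ℝ) (u : ℝ) :
    dm s f (Set.Iic u) = ENNReal.ofReal (((s.filter (fun a => f a ≤ u)).card : ℝ) / s.card) := by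
  classical
  unfold dm
  rw [Measure.finsetSum_apply]
  simp only [Measure.smul_apply, smul_eq_mul, Measure.dirac_apply' _ measurableSet_Iic]
  rw [card_filter]
  push_cast
  rw [sum_div, ENNReal.ofReal_sum_of_nonneg]
  · refine sum_congr rfl fun a _ => ?_
    by_cases h : f a ≤ u
    · rw [Set.indicator_of_mem (Set.mem_Iic.2 h), if_pos h]
      simp
    · rw [Set.indicator_of_notMem (by simpa using h), if_neg h]
      simp
  · intro a _
    split_ifs <;> positivity

/-- uniform central limit theorem -/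
theorem uclt (b : ℕ) (hb : 1 ≤ b) (g : ℕ → ℝ) (B : ℝ) (hB : 1 ≤ B) (hg : ∀ d, |g d| ≤ B)
    (h0 : mean b g = 0) (σ : ℝ) (hσ : 0 < σ) (h2 : mean b (fun d => g d ^ 2) = σ ^ 2)
    {α : Type} (P : ℕ → Finset α → (ℕ → α → ℕ) → Prop)
    (hP0 : ∀ n s c, P n s c → s.Nonempty)
    (hP : ∀ (p A : ℕ) (B : ℝ), ∃ N0 : ℕ, ∀ n : ℕ, N0 ≤ n → ∀ s c, P n s c →
      Ind s c b n p B (1 / (n : ℝ) ^ A))
    (u : ℝ) (η : ℝ) (hη : 0 < η) :
    ∃ n0 : ℕ, ∀ n : ℕ, n0 ≤ n → ∀ s c, P n s c →
      |((s.filter (fun a => ∑ k ∈ range n, g (c k a) ≤ u * (σ * √n))).card : ℝ) / s.card -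
        (gaussianReal 0 1).real (Set.Iic u)| ≤ η := by
  by_contra hcon
  push Not at hcon
  choose N hN s c hsc hbad using hcon
  -- the sequence of measures
  set f : ℕ → α → ℝ := fun j a => (∑ k ∈ range (N j), g (c j k a)) / (σ * √(N j)) with hf
  have hprob : ∀ j, IsProbabilityMeasure (dm (s j) (f j)) := fun j =>
    dm_prob (s j) (hP0 _ _ _ (hsc j)) (f j)
  set μ : ℕ → ProbabilityMeasure ℝ := fun j => ⟨dm (s j) (f j), hprob j⟩ with hμ
  set γ : ProbabilityMeasure ℝ := ⟨gaussianReal 0 1, inferInstance⟩ with hγ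
  have hlim : Tendsto μ atTop (𝓝 γ) := by
    rw [ProbabilityMeasure.tendsto_iff_tendsto_charFun]
    intro t
    have e1 : charFun (γ : Measure ℝ) t = Complex.exp (-t ^ 2 / 2) := by
      rw [hγ]
      simp only [ProbabilityMeasure.coe_mk]
      rw [charFun_gaussianReal]
      congr 1
      push_cast
      ring
    rw [e1, Metric.tendsto_atTop]
    intro ε hε
    obtain ⟨n0, hn0⟩ := char_unif b hb g B hB hg h0 σ hσ h2 P hP t ε hε
    refine ⟨n0, fun j hj => ?_⟩
    rw [dist_eq_norm]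
    have e2 := hn0 (N j) (hj.trans (hN j)) (s j) (c j) (hsc j)
    have e3 : charFun (μ j : Measure ℝ) t = av (s j) (fun a => Complex.exp
        (((t / (σ * √(N j)) * ∑ k ∈ range (N j), g (c j k a) : ℝ) : ℂ) * Complex.I)) := by
      rw [hμ]
      simp only [ProbabilityMeasure.coe_mk]
      rw [dm_charFun]
      congr 1
      funext a
      congr 3
      rw [hf]
      ring
    rw [e3]
    exact e2
  have hfr : (γ : Measure ℝ) (frontier (Set.Iic u)) = 0 := by
    rw [frontier_Iic, hγ]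
    simp only [ProbabilityMeasure.coe_mk]
    have : NullSingletonClass (gaussianReal 0 1) := nullSingletonClass_gaussianReal (by norm_num)
    exact measure_singleton u
  have h3 := ProbabilityMeasure.tendsto_measure_of_null_frontier_of_tendsto' hlim hfr
  have h4 := (ENNReal.tendsto_toReal (measure_ne_top _ _)).comp h3
  rw [Metric.tendsto_atTop] at h4
  obtain ⟨j0, hj0⟩ := h4 η hη
  set j := max j0 1 with hj
  have h5 := hj0 j (le_max_left _ _)
  have h6 := hbad j
  have hNj : (0 : ℝ) < N j := by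
    have : 1 ≤ N j := (le_max_right j0 1).trans (hN j)
    exact_mod_cast this
  rw [Real.dist_eq] at h5
  have h7 : ((μ j : Measure ℝ) (Set.Iic u)).toReal =
      ((s j).filter (fun a => ∑ k ∈ range (N j), g (c j k a) ≤ u * (σ * √(N j)))).card /
        (s j).card := by
    rw [hμ]
    simp only [ProbabilityMeasure.coe_mk]
    rw [dm_Iic, ENNReal.toReal_ofReal (by positivity)]
    congr 3
    refine filter_congr fun a _ => ?_
    rw [hf]
    simp only
    rw [div_le_iff₀ (by positivity)]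
  simp only [Function.comp_apply] at h5
  rw [h7] at h5
  have h8 : ((γ : Measure ℝ) (Set.Iic u)).toReal = (gaussianReal 0 1).real (Set.Iic u) := rfl
  rw [h8] at h5
  linarith

end Run7.h518.CLT
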